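import Pool.Agent.Work.MP_547619_co_helper96.Step

/-!
# Bootstrapping: `Bound θ M K` for every `θ < 4`
-/

open Finset

set_option linter.unusedSectionVars false

namespace Frag

lemma Small.card_zero_bound {V : Type} [Fintype V] (hV : ¬ Nonempty V) (θ M : ℝ) (K : ℕ)
    (G : SimpleGraph V) : ∃ W : Finset V, Small K G W ∧
      θ * (Fintype.card V : ℝ) ^ 2 ≤ (W.card : ℝ) * (ed G + M * Fintype.card V) := by
  haveI : IsEmpty V := not_nonempty_iff.mp hV
  exact ⟨∅, small_empty K G, by simp⟩

/-- Turan's bound in this form. -/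
theorem bound_one : Bound 1 1 1 := by
  refine bound_of_step zero_le_one one_pos ?_
  intro V _ G hV
  right
  classical
  set n : ℝ := (Fintype.card V : ℝ) with hn
  have hn0 : 0 < n := by rw [hn]; exact_mod_cast Fintype.card_pos
  set D : ℝ := ed G / n with hD
  have hnD : n * D = ed G := by rw [hD]; field_simp
  have hsumdeg : ∑ x, dg G x = n * D := hnD.symm
  -- closed neighbourhood of v
  set N : V → Finset V := fun v => {x | v = x ∨ G.Adj v x} with hN
  have hNsum : ∀ v (f : V → ℝ), ∑ x ∈ N v, f x = ∑ x, cl G v x * f x := by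
    intro v f
    simp only [hN, cl]
    rw [Finset.sum_filter]
    refine Finset.sum_congr rfl fun x _ => ?_
    split_ifs <;> simp
  have hexist : ∃ v, (∑ x ∈ N v, (2 * (D - dg G x) + 1)) + eR G (N v) ≤ (D + 1) ^ 2 := by
    by_contra hcon
    push Not at hcon
    have h1 : ∑ _v : V, (D + 1) ^ 2 < ∑ v, ((∑ x ∈ N v, (2 * (D - dg G x) + 1)) + eR G (N v)) :=
      Finset.sum_lt_sum_of_nonempty Finset.univ_nonempty fun v _ => hcon v
    have h2 : ∀ v, eR G (N v) ≤ ∑ x ∈ N v, dg G x := by
      intro v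
      unfold eR
      refine Finset.sum_le_sum fun x _ => ?_
      unfold dg
      exact Finset.sum_le_univ_sum_of_nonneg fun y => ad_nonneg G x y
    have h3 : ∑ v, ((∑ x ∈ N v, (2 * (D - dg G x) + 1)) + eR G (N v)) ≤ n * (D + 1) ^ 2 := by
      calc ∑ v, ((∑ x ∈ N v, (2 * (D - dg G x) + 1)) + eR G (N v))
          ≤ ∑ v, ∑ x ∈ N v, (2 * D + 1 - dg G x) := by
            refine Finset.sum_le_sum fun v _ => ?_
            have e : ∑ x ∈ N v, (2 * D + 1 - dg G x)
                = (∑ x ∈ N v, (2 * (D - dg G x) + 1)) + ∑ x ∈ N v, dg G x := by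
              rw [← Finset.sum_add_distrib]
              exact Finset.sum_congr rfl fun x _ => by ring
            rw [e]
            linarith [h2 v]
        _ = ∑ v, ∑ x, cl G v x * (2 * D + 1 - dg G x) := by
            refine Finset.sum_congr rfl fun v _ => hNsum v _
        _ = ∑ x, (1 + dg G x) * (2 * D + 1 - dg G x) := by
            rw [Finset.sum_comm]
            refine Finset.sum_congr rfl fun x _ => ?_
            rw [← Finset.sum_mul, sum_cl']
        _ ≤ ∑ x, ((D + 1) ^ 2) := by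
            have e2 : ∀ x, (1 + dg G x) * (2 * D + 1 - dg G x)
                = (D + 1) ^ 2 - (dg G x - D) ^ 2 := by intro x; ring
            simp only [e2]
            refine Finset.sum_le_sum fun x _ => ?_
            linarith [sq_nonneg (dg G x - D)]
        _ = n * (D + 1) ^ 2 := by rw [Finset.sum_const, nsmul_eq_mul, Finset.card_univ]
    rw [Finset.sum_const, nsmul_eq_mul, Finset.card_univ] at h1
    linarith
  obtain ⟨v, hv⟩ := hexist
  refine ⟨N v, {v}, ⟨v, by simp [hN]⟩, ?_, by simp, ?_, ?_⟩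
  · intro x hx
    rw [Finset.mem_singleton] at hx
    simp [hN, hx]
  · intro x hx y hxy
    rw [Finset.mem_singleton] at hx
    subst hx
    simp [hN, hxy]
  · intro D' hD'
    have : D' = D := by
      have h : n * D' = n * D := by rw [hnD]; exact hD'
      exact mul_left_cancel₀ hn0.ne' h
    rw [this]
    simp only [Finset.card_singleton, Nat.cast_one, one_mul]
    exact hv

theorem Bound.mono_K {θ M : ℝ} {K K' : ℕ} (h : Bound θ M K) (hK : K ≤ K') : Bound θ M K' := by
  intro V _ G
  obtain ⟨W, h1, h2⟩ := h V G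
  exact ⟨W, h1.mono hK, h2⟩

theorem Bound.mono_θ {θ θ' M : ℝ} {K : ℕ} (h : Bound θ M K) (hθ : θ' ≤ θ) : Bound θ' M K := by
  intro V _ G
  obtain ⟨W, h1, h2⟩ := h V G
  refine ⟨W, h1, le_trans ?_ h2⟩
  exact mul_le_mul_of_nonneg_right hθ (sq_nonneg _)

/-- One bootstrapping step. -/
theorem boot {s : ℝ} (hs : 0 < s) (hs1 : s ≤ 1 / 200) {θ M : ℝ} {K : ℕ} (hθ1 : 1 ≤ θ)
    (hM : 0 < M) (h : Bound θ M K) (hθ : θ + s / 2 ≤ 4 - 200 * s) :
    ∃ M' K', 0 < M' ∧ Bound (θ + s / 2) M' K' := by
  obtain ⟨K1, hK1⟩ := exists_T s hs hs1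
  -- threshold
  set D1 : ℝ := 8 * M / s + 2 / s + K1 / s with hD1
  have hD1pos : 0 < D1 := by
    have h1 : 0 < 8 * M / s := by positivity
    have h2 : 0 < 2 / s := by positivity
    have h3 : 0 ≤ (K1:ℝ) / s := by positivity
    rw [hD1]; linarith
  have hsD1 : s * D1 = 8 * M + 2 + K1 := by rw [hD1]; field_simp
  set M' : ℝ := s / 2 * D1 + 4 * M with hM'
  have hM'pos : 0 < M' := by positivity
  refine ⟨M', max K K1, hM'pos, ?_⟩
  refine bound_of_step (by linarith) hM'pos ?_
  intro V _ G hV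
  set n : ℝ := (Fintype.card V : ℝ) with hn
  have hn0 : 0 < n := by rw [hn]; exact_mod_cast Fintype.card_pos
  set D : ℝ := ed G / n with hD
  have hnD : n * D = ed G := by rw [hD]; field_simp
  have hD0 : 0 ≤ D := div_nonneg (ed_nonneg G) hn0.le
  rcases le_or_gt D D1 with hle | hgt
  · -- small average degree: old bound
    left
    obtain ⟨W, hW1, hW2⟩ := h V G
    refine ⟨W, hW1.mono (le_max_left _ _), ?_⟩
    have e1 : ed G + M * n = n * (D + M) := by rw [← hnD]; ring
    have e2 : ed G + M' * n = n * (D + M') := by rw [← hnD]; ring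
    rw [e1] at hW2
    rw [e2]
    set w : ℝ := (W.card : ℝ) with hw
    have hw0 : 0 ≤ w := Nat.cast_nonneg _
    -- (θ + s/2) (D + M) ≤ θ (D + M')
    have key : (θ + s / 2) * (D + M) ≤ θ * (D + M') := by
      have h1 : s / 2 * D ≤ s / 2 * D1 := mul_le_mul_of_nonneg_left hle (by linarith)
      have h2 : s / 2 * D1 ≤ θ * (s / 2 * D1) := by nlinarith [mul_pos hs hD1pos]
      have h3 : (θ + s / 2) * M ≤ 4 * M := mul_le_mul_of_nonneg_right (by linarith) hM.le
      have h4 : 4 * M ≤ θ * (4 * M) := by nlinarith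
      rw [hM']
      nlinarith
    have hWn : θ * n ≤ w * (D + M) := by
      have : (θ * n) * n ≤ (w * (D + M)) * n := by nlinarith
      exact le_of_mul_le_mul_right this hn0
    have goal1 : (θ + s / 2) * n ≤ w * (D + M') := by
      have h5 : θ * ((θ + s / 2) * n) ≤ θ * (w * (D + M')) := by
        calc θ * ((θ + s / 2) * n) = (θ + s / 2) * (θ * n) := by ring
          _ ≤ (θ + s / 2) * (w * (D + M)) := mul_le_mul_of_nonneg_left hWn (by linarith)
          _ = w * ((θ + s / 2) * (D + M)) := by ring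
          _ ≤ w * (θ * (D + M')) := mul_le_mul_of_nonneg_left key hw0
          _ = _ := by ring
      exact le_of_mul_le_mul_left h5 (by linarith)
    calc (θ + s / 2) * n ^ 2 = ((θ + s / 2) * n) * n := by ring
      _ ≤ (w * (D + M')) * n := mul_le_mul_of_nonneg_right goal1 hn0.le
      _ = _ := by ring
  · right
    have hsD : s * D1 ≤ s * D := mul_le_mul_of_nonneg_left hgt.le hs.le
    have hM'D : M' ≤ s * D := by
      rw [hM']
      have : s / 2 * D1 = (s * D1) / 2 := by ring
      rw [this]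
      linarith [hsD1]
    have hM'D2 : M' / 2 + 1 ≤ s * D := by
      have : M' ≤ s * D1 - 1 := by
        rw [hM']
        have : s / 2 * D1 = (s * D1) / 2 := by ring
        rw [this]
        have : (0:ℝ) ≤ K1 := Nat.cast_nonneg _
        linarith [hsD1]
      linarith
    have hKD : (K1 : ℝ) ≤ s * D := by linarith
    by_cases hdeg : ∀ x, dg G x ≤ D + M' / 2
    · obtain ⟨T, R, hT, hTR, hTK, hadj, hineq⟩ := hK1 V G D M' (θ + s / 2) hV hnD hM'pos.le hM'D
        hM'D2 hKD hdeg (by linarith) hθ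
      refine ⟨R, T, hT.mono hTR, hTR, hTK.trans (le_max_right _ _), hadj, ?_⟩
      intro D' hD'
      have : D' = D := by
        have h : n * D' = n * D := by rw [hnD]; exact hD'
        exact mul_left_cancel₀ hn0.ne' h
      rw [this]
      exact hineq
    · push Not at hdeg
      obtain ⟨x, hx⟩ := hdeg
      refine ⟨{x}, ∅, Finset.singleton_nonempty x, Finset.empty_subset _, by simp, by simp, ?_⟩
      intro D' hD'
      have : D' = D := by
        have h : n * D' = n * D := by rw [hnD]; exact hD'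
        exact mul_left_cancel₀ hn0.ne' h
      rw [this]
      simp only [Finset.sum_singleton, eR, ad_self, add_zero, Finset.card_empty, Nat.cast_zero,
        zero_mul]
      exact mul_nonpos_of_nonneg_of_nonpos (by linarith) (by linarith)

theorem boot_iter {s : ℝ} (hs : 0 < s) (hs1 : s ≤ 1 / 200) (k : ℕ) :
    1 + k * (s / 2) ≤ 4 - 200 * s → ∃ M K, 0 < M ∧ Bound (1 + k * (s / 2)) M K := by
  induction k with
  | zero =>
    intro _
    refine ⟨1, 1, one_pos, ?_⟩
    simpa using bound_one
  | succ k ih =>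
    intro h
    push_cast at h ⊢
    have h' : 1 + (k : ℝ) * (s / 2) ≤ 4 - 200 * s := by nlinarith
    obtain ⟨M, K, hM, hB⟩ := ih h'
    have hk : 0 ≤ (k : ℝ) * (s / 2) := by positivity
    obtain ⟨M', K', hM', hB'⟩ := boot hs hs1 (by linarith) hM hB (by linarith)
    refine ⟨M', K', hM', ?_⟩
    have : 1 + ((k : ℝ) + 1) * (s / 2) = 1 + (k : ℝ) * (s / 2) + s / 2 := by ring
    rw [this]
    exact hB'

/-- `Bound θ M K` holds for every `θ < 4` with suitable `M, K`. -/
theorem bound_lt_four {ε : ℝ} (hε : 0 < ε) : ∃ M K, 0 < M ∧ Bound (4 - ε) M K := by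
  set s : ℝ := min (ε / 400) (1 / 200) with hsdef
  have hs : 0 < s := lt_min (by positivity) (by norm_num)
  have hs1 : s ≤ 1 / 200 := min_le_right _ _
  have hs2 : s ≤ ε / 400 := min_le_left _ _
  -- number of steps
  set k : ℕ := ⌊(3 - 200 * s) / (s / 2)⌋₊ with hk
  have h0 : 0 ≤ (3 - 200 * s) / (s / 2) := div_nonneg (by linarith) (by linarith)
  have hk1 : (k : ℝ) ≤ (3 - 200 * s) / (s / 2) := Nat.floor_le h0
  have hk2 : (3 - 200 * s) / (s / 2) < k + 1 := Nat.lt_floor_add_one _
  have hk1' : (k : ℝ) * (s / 2) ≤ 3 - 200 * s := by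
    rw [le_div_iff₀ (by linarith)] at hk1
    exact hk1
  have hk2' : 3 - 200 * s < (k + 1) * (s / 2) := by
    rw [div_lt_iff₀ (by linarith)] at hk2
    exact hk2
  obtain ⟨M, K, hM, hB⟩ := boot_iter hs hs1 k (by linarith)
  refine ⟨M, K, hM, hB.mono_θ ?_⟩
  nlinarith

end Frag
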