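import Pool.Agent.Work.MP_547619_co_helper96.Defs
import Pool.Agent.Work.MP_547619_co_helper96.Boot

/-!
# From the Turan type bound to the coefficient of fragmentability
-/

open Finset

set_option linter.unusedSectionVars false

namespace Frag

/-- A set that splits into pieces of size at most `K` induces a graph of tree-width at most `K`. -/
theorem treeWidthLE_of_small {n : ℕ} (G : SimpleGraph (Fin n)) {K : ℕ} {W : Finset (Fin n)}
    (h : Small K G W) (S : Finset (Fin n)) (hS : ∀ x, x ∉ S → x ∈ W) :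
    TreeWidthLE (G.induce {v | v ∉ S}) K := by
  classical
  obtain ⟨f, hf1, hf2⟩ := h
  -- labels are bounded
  obtain ⟨N, hN⟩ : ∃ N, ∀ x ∈ W, f x < N := by
    refine ⟨(∑ x ∈ W, f x) + 1, fun x hx => ?_⟩
    have := Finset.single_le_sum (f := f) (fun i _ => Nat.zero_le _) hx
    omega
  have hlt : ∀ v : {v // v ∈ {v | v ∉ S}}, f v.1 < N + 1 := fun v =>
    Nat.lt_succ_of_lt (hN v.1 (hS v.1 v.2))
  refine ⟨N + 1, SimpleGraph.starGraph 0, fun i => {v | f v.1 = i.1}, SimpleGraph.isTree_starGraph 0,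
    ?_, ?_, ?_, ?_⟩
  · intro v
    exact ⟨⟨f v.1, hlt v⟩, by simp⟩
  · intro u v huv
    have : f u.1 = f v.1 := hf1 u.1 (hS u.1 u.2) v.1 (hS v.1 v.2) huv
    exact ⟨⟨f u.1, hlt u⟩, by simp, by simp [this]⟩
  · intro v
    have hset : {i : Fin (N + 1) | v ∈ (Finset.univ.filter (fun w : {v // v ∈ {v | v ∉ S}} => f w.1 = i.1))}
        = {(⟨f v.1, hlt v⟩ : Fin (N + 1))} := by
      ext i
      simp [Fin.ext_iff, eq_comm]
    rw [hset]
    have : Subsingleton ({(⟨f v.1, hlt v⟩ : Fin (N + 1))} : Set (Fin (N + 1))) := by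
      constructor
      rintro ⟨a, ha⟩ ⟨b, hb⟩
      rw [Set.mem_singleton_iff] at ha hb
      subst ha
      subst hb
      rfl
    have : Nonempty ({(⟨f v.1, hlt v⟩ : Fin (N + 1))} : Set (Fin (N + 1))) := ⟨⟨_, rfl⟩⟩
    exact SimpleGraph.Connected.of_subsingleton
  · intro i
    have h1 : (Finset.univ.filter (fun w : {v // v ∈ {v | v ∉ S}} => f w.1 = i.1)).map
        ⟨Subtype.val, Subtype.val_injective⟩ ⊆ {x ∈ W | f x = i.1} := by
      intro x hx
      rw [Finset.mem_map] at hx
      obtain ⟨y, hy, rfl⟩ := hx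
      rw [Finset.mem_filter] at hy ⊢
      exact ⟨hS y.1 y.2, hy.2⟩
    have h2 := Finset.card_le_card h1
    rw [Finset.card_map] at h2
    exact le_trans (le_trans h2 (hf2 i.1)) (Nat.le_succ K)

lemma dg_eq_degree {V : Type*} [Fintype V] (G : SimpleGraph V) [DecidableRel G.Adj] (x : V) :
    dg G x = G.degree x := by
  have h1 : dg G x = ∑ y, (if G.Adj x y then (1:ℝ) else 0) := by
    unfold dg ad
    refine Finset.sum_congr rfl fun y _ => ?_
    by_cases h : G.Adj x y
    · rw [if_pos h, if_pos h]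
    · rw [if_neg h, if_neg h]
  rw [h1, Finset.sum_boole]
  congr 1
  rw [← SimpleGraph.card_neighborFinset_eq_degree]
  congr 1
  ext y
  simp

lemma ed_eq {n : ℕ} (G : SimpleGraph (Fin n)) : ed G = 2 * (G.edgeSet.ncard : ℝ) := by
  classical
  unfold ed
  simp only [dg_eq_degree]
  have h := G.sum_degrees_eq_twice_card_edges
  have h2 : G.edgeSet.ncard = G.edgeFinset.card := by
    rw [Set.ncard_eq_toFinset_card']
    congr 1
  rw [h2]
  exact_mod_cast h

/-- Upper bound for the coefficient of fragmentability of the class of average degree at most `d`. -/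
theorem admissible_avg {θ M : ℝ} {K : ℕ} (hM : 0 < M) (hB : Bound θ M K)
    (d : ℕ) :
    ∀ (n : ℕ) (G : SimpleGraph (Fin n)), avgDegClass d n G →
      ∃ S : Finset (Fin n), (S.card : ℝ) ≤ (1 - θ / (d + M)) * (n : ℝ) ∧
        TreeWidthLE (G.induce {v | v ∉ S}) K := by
  intro n G hG
  obtain ⟨W, hW1, hW2⟩ := hB (Fin n) G
  rw [Fintype.card_fin] at hW2
  refine ⟨Wᶜ, ?_, treeWidthLE_of_small G hW1 Wᶜ (fun x hx => by simpa using hx)⟩
  have hc : ((Wᶜ).card : ℝ) = n - W.card := by
    rw [Finset.card_compl, Fintype.card_fin, Nat.cast_sub]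
    have := Finset.card_le_univ W
    simpa using this
  rw [hc]
  have hdM : 0 < (d : ℝ) + M := by positivity
  have hed : ed G ≤ d * n := by
    rw [ed_eq]
    exact_mod_cast hG
  have hW0 : (0:ℝ) ≤ W.card := Nat.cast_nonneg _
  have h3 : θ * (n : ℝ) ^ 2 ≤ (W.card : ℝ) * ((d + M) * n) := by
    refine le_trans hW2 (mul_le_mul_of_nonneg_left ?_ hW0)
    linarith
  rcases Nat.eq_zero_or_pos n with hn | hn
  · subst hn
    simp
  · have hnR : (0:ℝ) < n := by exact_mod_cast hn
    have h4 : θ * n ≤ (W.card : ℝ) * (d + M) := by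
      have : (θ * n) * n ≤ ((W.card : ℝ) * (d + M)) * n := by nlinarith
      exact le_of_mul_le_mul_right this hnR
    have h5 : θ / (d + M) * n ≤ W.card := by
      rw [div_mul_eq_mul_div, div_le_iff₀ hdM]
      exact h4
    nlinarith

/-- deleting everything -/
lemma admissible_one (Cl : GraphClass) :
    ∀ (n : ℕ) (G : SimpleGraph (Fin n)), Cl n G →
      ∃ S : Finset (Fin n), (S.card : ℝ) ≤ 1 * (n : ℝ) ∧
        TreeWidthLE (G.induce {v | v ∉ S}) 0 := by
  intro n G _
  refine ⟨Finset.univ, by simp, ?_⟩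
  exact treeWidthLE_of_small G (small_empty 0 G) Finset.univ (fun x hx => absurd (Finset.mem_univ x) hx)

/-- the set whose infimum is the coefficient -/
def admSet (Cl : GraphClass) : Set ℝ :=
  {lam : ℝ | 0 ≤ lam ∧ ∃ k : ℕ, ∀ (n : ℕ) (G : SimpleGraph (Fin n)), Cl n G →
    ∃ S : Finset (Fin n), (S.card : ℝ) ≤ lam * (n : ℝ) ∧
      TreeWidthLE (G.induce {v | v ∉ S}) k}

lemma fragCoeff_eq (Cl : GraphClass) : fragCoeff Cl = sInf (admSet Cl) := rfl

lemma admSet_nonempty (Cl : GraphClass) : (admSet Cl).Nonempty :=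
  ⟨1, zero_le_one, 0, admissible_one Cl⟩

lemma admSet_bddBelow (Cl : GraphClass) : BddBelow (admSet Cl) :=
  ⟨0, fun _ h => h.1⟩

lemma fragCoeff_mono {C1 C2 : GraphClass} (h : ∀ n G, C1 n G → C2 n G) :
    fragCoeff C1 ≤ fragCoeff C2 := by
  rw [fragCoeff_eq, fragCoeff_eq]
  refine csInf_le_csInf (admSet_bddBelow C1) (admSet_nonempty C2) ?_
  rintro lam ⟨h0, k, hk⟩
  exact ⟨h0, k, fun n G hG => hk n G (h n G hG)⟩

lemma maxDeg_sub_avgDeg (d : ℕ) (n : ℕ) (G : SimpleGraph (Fin n)) (h : maxDegClass d n G) :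
    avgDegClass d n G := by
  classical
  unfold avgDegClass
  have h1 : (2 * G.edgeSet.ncard : ℝ) ≤ d * n := by
    rw [← ed_eq]
    unfold ed
    calc ∑ x, dg G x ≤ ∑ _x : Fin n, (d : ℝ) := by
          refine Finset.sum_le_sum fun x _ => ?_
          rw [dg_eq_degree]
          have := h x
          have h2 : (G.neighborSet x).ncard = G.degree x := by
            rw [Set.ncard_eq_toFinset_card']
            rw [← SimpleGraph.card_neighborFinset_eq_degree]
            congr 1
          rw [h2] at this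
          exact_mod_cast this
      _ = d * n := by simp [mul_comm]
  exact_mod_cast h1

/-- Upper bound for the coefficient. -/
theorem fragCoeff_avg_le {θ M : ℝ} {K : ℕ} (hM : 0 < M) (hB : Bound θ M K)
    (d : ℕ) (hd : θ ≤ d + M) : fragCoeff (avgDegClass d) ≤ 1 - θ / (d + M) := by
  rw [fragCoeff_eq]
  refine csInf_le (admSet_bddBelow _) ⟨?_, K, admissible_avg hM hB d⟩
  have hdM : 0 < (d : ℝ) + M := by positivity
  rw [sub_nonneg, div_le_one hdM]
  exact hd

end Frag
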