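import Mathlib

/-!
# Adjacency indicators, degrees, codegrees; the counting heart of the argument
-/

open Finset

set_option linter.unusedSectionVars false

namespace Frag

section
variable {V : Type*} [Fintype V] (G : SimpleGraph V)

open Classical in
/-- adjacency indicator -/
noncomputable def ad (x y : V) : ℝ := if G.Adj x y then 1 else 0

/-- degree as a real number -/
noncomputable def dg (x : V) : ℝ := ∑ y, ad G x y

open Classical in
/-- closed adjacency indicator -/
noncomputable def cl (x y : V) : ℝ := if x = y ∨ G.Adj x y then 1 else 0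

open Classical in
/-- equality indicator -/
noncomputable def eqi (x y : V) : ℝ := if x = y then 1 else 0

/-- codegree -/
noncomputable def cd (x y : V) : ℝ := ∑ z, ad G x z * ad G z y

lemma ad_nonneg (x y : V) : 0 ≤ ad G x y := by unfold ad; split_ifs <;> norm_num
lemma ad_le_one (x y : V) : ad G x y ≤ 1 := by unfold ad; split_ifs <;> norm_num
lemma ad_symm (x y : V) : ad G x y = ad G y x := by
  unfold ad
  by_cases h : G.Adj x y
  · rw [if_pos h, if_pos h.symm]
  · rw [if_neg h, if_neg (fun h' => h h'.symm)]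
lemma ad_sq (x y : V) : ad G x y * ad G x y = ad G x y := by unfold ad; split_ifs <;> norm_num
lemma ad_self (x : V) : ad G x x = 0 := by unfold ad; simp
lemma cl_nonneg (x y : V) : 0 ≤ cl G x y := by unfold cl; split_ifs <;> norm_num
lemma cl_le_one (x y : V) : cl G x y ≤ 1 := by unfold cl; split_ifs <;> norm_num
lemma eqi_nonneg (x y : V) : 0 ≤ eqi x y := by unfold eqi; split_ifs <;> norm_num

lemma cl_eq (x y : V) : cl G x y = eqi x y + ad G x y := by
  unfold cl eqi ad
  by_cases h : x = y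
  · subst h; simp
  · by_cases h' : G.Adj x y
    · rw [if_pos (Or.inr h'), if_neg h, if_pos h']; norm_num
    · rw [if_neg (by rintro (h1 | h1); exacts [h h1, h' h1]), if_neg h, if_neg h']; norm_num

lemma dg_nonneg (x : V) : 0 ≤ dg G x := Finset.sum_nonneg fun y _ => ad_nonneg G x y
lemma cd_nonneg (x y : V) : 0 ≤ cd G x y :=
  Finset.sum_nonneg fun z _ => mul_nonneg (ad_nonneg G x z) (ad_nonneg G z y)

lemma sum_ad_left (y : V) : ∑ x, ad G x y = dg G y := by
  unfold dg
  exact Finset.sum_congr rfl fun x _ => ad_symm G x y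

lemma cd_le_dg (x y : V) : cd G x y ≤ dg G x :=
  Finset.sum_le_sum fun z _ => by
    nlinarith [ad_nonneg G x z, ad_nonneg G z y, ad_le_one G z y]

lemma sum_mul_eqi (x : V) (f : V → ℝ) : ∑ y, f y * eqi x y = f x := by
  classical
  rw [Finset.sum_eq_single x]
  · unfold eqi; simp
  · intro b _ hb
    unfold eqi
    rw [if_neg (Ne.symm hb), mul_zero]
  · intro h; exact absurd (Finset.mem_univ x) h

lemma sum_eqi (x : V) : ∑ y, eqi x y = 1 := by
  have := sum_mul_eqi x (fun _ => 1)
  simpa using this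

lemma sum_cl (x : V) : ∑ y, cl G x y = 1 + dg G x := by
  simp only [cl_eq, Finset.sum_add_distrib, sum_eqi]
  rfl

lemma eqi_symm (x y : V) : eqi x y = eqi y x := by
  unfold eqi
  by_cases h : x = y
  · subst h; rfl
  · rw [if_neg h, if_neg (fun h' => h h'.symm)]

lemma cl_symm (x y : V) : cl G x y = cl G y x := by
  rw [cl_eq, cl_eq, ad_symm, eqi_symm]

lemma sum_cl' (y : V) : ∑ x, cl G x y = 1 + dg G y := by
  rw [← sum_cl]
  exact Finset.sum_congr rfl fun x _ => cl_symm G x y

variable (Δ : ℝ)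

/-- fraction of the neighbourhood of `v` (relative to `Δ`) in the closed neighbourhood of `x` -/
noncomputable def Fr (v x : V) : ℝ := (∑ u, ad G v u * cl G u x) / Δ

/-- the same for two vertices -/
noncomputable def Jr (v x y : V) : ℝ := (∑ u, ad G v u * (cl G u x * cl G u y)) / Δ

variable {G Δ}

lemma Fr_nonneg (hΔ : 0 < Δ) (v x : V) : 0 ≤ Fr G Δ v x :=
  div_nonneg (Finset.sum_nonneg fun u _ => mul_nonneg (ad_nonneg G v u) (cl_nonneg G u x)) hΔ.le

lemma Jr_nonneg (hΔ : 0 < Δ) (v x y : V) : 0 ≤ Jr G Δ v x y :=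
  div_nonneg (Finset.sum_nonneg fun u _ => mul_nonneg (ad_nonneg G v u)
    (mul_nonneg (cl_nonneg G u x) (cl_nonneg G u y))) hΔ.le

lemma sum_Fr_right (hΔ : 0 < Δ) (hd : ∀ x, dg G x ≤ Δ) (v : V) :
    ∑ x, Fr G Δ v x ≤ Δ + 1 := by
  unfold Fr
  rw [← Finset.sum_div, Finset.sum_comm, div_le_iff₀ hΔ]
  calc ∑ u, ∑ x, ad G v u * cl G u x = ∑ u, ad G v u * (1 + dg G u) := by
        refine Finset.sum_congr rfl fun u _ => ?_
        rw [← Finset.mul_sum, sum_cl]
    _ ≤ ∑ u, ad G v u * (Δ + 1) := by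
        refine Finset.sum_le_sum fun u _ => mul_le_mul_of_nonneg_left ?_ (ad_nonneg G v u)
        linarith [hd u]
    _ = dg G v * (Δ + 1) := by rw [← Finset.sum_mul]; rfl
    _ ≤ (Δ + 1) * Δ := by nlinarith [hd v]

lemma sum_Fr_left (hΔ : 0 < Δ) (hd : ∀ x, dg G x ≤ Δ) (x : V) :
    ∑ v, Fr G Δ v x ≤ Δ + 1 := by
  unfold Fr
  rw [← Finset.sum_div, Finset.sum_comm, div_le_iff₀ hΔ]
  calc ∑ u, ∑ v, ad G v u * cl G u x = ∑ u, dg G u * cl G u x := by
        refine Finset.sum_congr rfl fun u _ => ?_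
        rw [← Finset.sum_mul, sum_ad_left]
    _ ≤ ∑ u, Δ * cl G u x := by
        refine Finset.sum_le_sum fun u _ => mul_le_mul_of_nonneg_right (hd u) (cl_nonneg G u x)
    _ = Δ * (1 + dg G x) := by rw [← Finset.mul_sum, sum_cl']
    _ ≤ (Δ + 1) * Δ := by nlinarith [hd x]

/-- adjacent pairs weighted by a function of the first vertex -/
lemma sum_ad_mul_left (hd : ∀ x, dg G x ≤ Δ) {f : V → ℝ} (hf : ∀ x, 0 ≤ f x) :
    ∑ x, ∑ y, ad G x y * f x ≤ Δ * ∑ x, f x := by
  rw [Finset.mul_sum]
  refine Finset.sum_le_sum fun x _ => ?_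
  rw [← Finset.sum_mul]
  exact mul_le_mul_of_nonneg_right (hd x) (hf x)

lemma sum_ad_mul_right (hd : ∀ x, dg G x ≤ Δ) {f : V → ℝ} (hf : ∀ x, 0 ≤ f x) :
    ∑ x, ∑ y, ad G x y * f y ≤ Δ * ∑ x, f x := by
  rw [Finset.sum_comm]
  calc ∑ y, ∑ x, ad G x y * f y = ∑ y, ∑ x, ad G y x * f y := by
        refine Finset.sum_congr rfl fun y _ => Finset.sum_congr rfl fun x _ => ?_
        rw [ad_symm]
    _ ≤ _ := sum_ad_mul_left hd hf

lemma sum_dg_le (hd : ∀ x, dg G x ≤ Δ) : ∑ x, dg G x ≤ Fintype.card V * Δ := by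
  calc ∑ x, dg G x ≤ ∑ _x : V, Δ := Finset.sum_le_sum fun x _ => hd x
    _ = _ := by simp

lemma cd_le_Fr (hΔ : 0 < Δ) (v x : V) : cd G v x ≤ Δ * Fr G Δ v x := by
  unfold Fr cd
  rw [mul_div_cancel₀ _ hΔ.ne']
  refine Finset.sum_le_sum fun u _ => mul_le_mul_of_nonneg_left ?_ (ad_nonneg G v u)
  rw [cl_eq]
  linarith [eqi_nonneg u x]

lemma sum_ad_cl_eq (u x : V) : ∑ y, ad G x y * cl G u y = ad G u x + cd G u x := by
  have : ∀ y, ad G x y * cl G u y = ad G x y * eqi u y + ad G u y * ad G y x := by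
    intro y
    rw [cl_eq, ad_symm G y x]
    ring
  simp only [this, Finset.sum_add_distrib]
  rw [sum_mul_eqi u (fun y => ad G x y), ad_symm G x u]
  rfl

open Classical in
/-- The counting heart. -/
lemma low_sum (hΔ : 0 < Δ) (hd : ∀ x, dg G x ≤ Δ) {τ' : ℝ} (hτ : 0 < τ') :
    ∑ v, ∑ x, ∑ y, ad G x y * ((if Fr G Δ v x < τ' then 1 else 0) * Jr G Δ v x y)
      ≤ Fintype.card V * (Δ + Δ * τ' * (Δ + 1) + (Δ + 1) ^ 2 / 4) := by
  set n : ℝ := (Fintype.card V : ℝ) with hn
  set low : V → V → ℝ := fun v x => if Fr G Δ v x < τ' then 1 else 0 with hlow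
  have low0 : ∀ v x, 0 ≤ low v x := by intro v x; simp only [hlow]; split_ifs <;> norm_num
  have low1 : ∀ v x, low v x ≤ 1 := by intro v x; simp only [hlow]; split_ifs <;> norm_num
  -- step 1: rewrite
  have step1 : ∑ v, ∑ x, ∑ y, ad G x y * (low v x * Jr G Δ v x y)
      = (∑ v, ∑ u, ∑ x, ad G v u * low v x * (cl G u x * ∑ y, ad G x y * cl G u y)) / Δ := by
    rw [Finset.sum_div]
    refine Finset.sum_congr rfl fun v _ => ?_
    calc ∑ x, ∑ y, ad G x y * (low v x * Jr G Δ v x y)
        = ∑ x, ∑ y, ∑ u, (ad G v u * low v x * (cl G u x * (ad G x y * cl G u y))) / Δ := by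
          refine Finset.sum_congr rfl fun x _ => Finset.sum_congr rfl fun y _ => ?_
          unfold Jr
          rw [Finset.sum_div, Finset.mul_sum, Finset.mul_sum]
          refine Finset.sum_congr rfl fun u _ => ?_
          ring
      _ = ∑ x, ∑ u, ∑ y, (ad G v u * low v x * (cl G u x * (ad G x y * cl G u y))) / Δ := by
          refine Finset.sum_congr rfl fun x _ => Finset.sum_comm
      _ = ∑ u, ∑ x, ∑ y, (ad G v u * low v x * (cl G u x * (ad G x y * cl G u y))) / Δ :=
          Finset.sum_comm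
      _ = _ := by
          rw [Finset.sum_div]
          refine Finset.sum_congr rfl fun u _ => ?_
          rw [Finset.sum_div]
          refine Finset.sum_congr rfl fun x _ => ?_
          rw [Finset.mul_sum, Finset.mul_sum, Finset.sum_div]
  -- step 2: pointwise bound
  have pw : ∀ v u x, ad G v u * low v x * (cl G u x * ∑ y, ad G x y * cl G u y)
      ≤ ad G v u * (eqi u x * Δ) + ad G v u * low v x * ad G v x * (ad G u x * (1 + cd G u x))
        + ad G v u * (1 - ad G v x) * (ad G u x * (1 + cd G u x)) := by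
    intro v u x
    have h1 : cl G u x * ∑ y, ad G x y * cl G u y
        ≤ eqi u x * Δ + ad G u x * (1 + cd G u x) := by
      rw [sum_ad_cl_eq]
      by_cases hux : u = x
      · subst hux
        have : cl G u u = 1 := by unfold cl; simp
        rw [this, ad_self]
        have : eqi u u = 1 := by unfold eqi; simp
        rw [this]
        have := cd_le_dg G u u
        have := hd u
        linarith
      · have he : eqi u x = 0 := by unfold eqi; simp [hux]
        rw [cl_eq, he]
        have h3 : ad G u x * ad G u x = ad G u x := ad_sq G u x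
        have : (0 + ad G u x) * (ad G u x + cd G u x) = ad G u x * (1 + cd G u x) := by
          rw [zero_add, mul_add, h3]; ring
        rw [this]
        linarith
    have h2 : 0 ≤ ad G u x * (1 + cd G u x) :=
      mul_nonneg (ad_nonneg G u x) (by linarith [cd_nonneg G u x])
    have h3 : 0 ≤ eqi u x * Δ := mul_nonneg (eqi_nonneg u x) hΔ.le
    have ha := ad_nonneg G v u
    have hb := ad_le_one G v x
    have hl0 := low0 v x
    have hl1 := low1 v x
    calc ad G v u * low v x * (cl G u x * ∑ y, ad G x y * cl G u y)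
        ≤ ad G v u * low v x * (eqi u x * Δ + ad G u x * (1 + cd G u x)) :=
          mul_le_mul_of_nonneg_left h1 (mul_nonneg ha hl0)
      _ ≤ _ := by
        have e1 : ad G v u * low v x * (eqi u x * Δ) ≤ ad G v u * (eqi u x * Δ) := by
          have : ad G v u * low v x ≤ ad G v u := by nlinarith
          exact mul_le_mul_of_nonneg_right this h3
        have e2 : ad G v u * low v x * (1 - ad G v x) ≤ ad G v u * (1 - ad G v x) := by
          have : ad G v u * low v x ≤ ad G v u := by nlinarith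
          exact mul_le_mul_of_nonneg_right this (by linarith)
        have e3 : ad G v u * low v x * (1 - ad G v x) * (ad G u x * (1 + cd G u x))
            ≤ ad G v u * (1 - ad G v x) * (ad G u x * (1 + cd G u x)) :=
          mul_le_mul_of_nonneg_right e2 h2
        nlinarith
  -- step 3: the three sums
  have s1 : ∑ v, ∑ u, ∑ x, ad G v u * (eqi u x * Δ) ≤ n * (Δ * Δ) := by
    calc ∑ v, ∑ u, ∑ x, ad G v u * (eqi u x * Δ) = ∑ v, ∑ u, ad G v u * Δ := by
          refine Finset.sum_congr rfl fun v _ => Finset.sum_congr rfl fun u _ => ?_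
          rw [← Finset.mul_sum, ← Finset.sum_mul, sum_eqi, one_mul]
      _ = (∑ v, dg G v) * Δ := by
          rw [Finset.sum_mul]
          refine Finset.sum_congr rfl fun v _ => ?_
          rw [← Finset.sum_mul]; rfl
      _ ≤ (n * Δ) * Δ := mul_le_mul_of_nonneg_right (sum_dg_le hd) hΔ.le
      _ = _ := by ring
  have s2 : ∑ v, ∑ u, ∑ x, ad G v u * low v x * ad G v x * (ad G u x * (1 + cd G u x))
      ≤ n * (Δ * (τ' * Δ * (Δ + 1))) := by
    calc ∑ v, ∑ u, ∑ x, ad G v u * low v x * ad G v x * (ad G u x * (1 + cd G u x))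
        ≤ ∑ v, ∑ u, ∑ x, ad G v u * low v x * ad G v x * (ad G u x * (Δ + 1)) := by
          refine Finset.sum_le_sum fun v _ => Finset.sum_le_sum fun u _ =>
            Finset.sum_le_sum fun x _ => ?_
          refine mul_le_mul_of_nonneg_left ?_
            (mul_nonneg (mul_nonneg (ad_nonneg G v u) (low0 v x)) (ad_nonneg G v x))
          refine mul_le_mul_of_nonneg_left ?_ (ad_nonneg G u x)
          linarith [cd_le_dg G u x, hd u]
      _ = ∑ v, ∑ x, (low v x * cd G v x) * ad G v x * (Δ + 1) := by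
          refine Finset.sum_congr rfl fun v _ => ?_
          rw [Finset.sum_comm]
          refine Finset.sum_congr rfl fun x _ => ?_
          unfold cd
          rw [Finset.mul_sum, Finset.sum_mul, Finset.sum_mul]
          refine Finset.sum_congr rfl fun u _ => ?_
          ring
      _ ≤ ∑ v, ∑ x, (τ' * Δ) * ad G v x * (Δ + 1) := by
          refine Finset.sum_le_sum fun v _ => Finset.sum_le_sum fun x _ => ?_
          refine mul_le_mul_of_nonneg_right ?_ (by linarith)
          refine mul_le_mul_of_nonneg_right ?_ (ad_nonneg G v x)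
          simp only [hlow]
          split_ifs with hF
          · have := cd_le_Fr (G := G) hΔ v x
            nlinarith
          · rw [zero_mul]; positivity
      _ = (τ' * Δ * (Δ + 1)) * ∑ v, dg G v := by
          rw [Finset.mul_sum]
          refine Finset.sum_congr rfl fun v _ => ?_
          unfold dg
          rw [Finset.mul_sum]
          refine Finset.sum_congr rfl fun x _ => ?_
          ring
      _ ≤ (τ' * Δ * (Δ + 1)) * (n * Δ) :=
          mul_le_mul_of_nonneg_left (sum_dg_le hd) (by positivity)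
      _ = _ := by ring
  have s3 : ∑ v, ∑ u, ∑ x, ad G v u * (1 - ad G v x) * (ad G u x * (1 + cd G u x))
      ≤ n * (Δ * ((Δ + 1) ^ 2 / 4)) := by
    calc ∑ v, ∑ u, ∑ x, ad G v u * (1 - ad G v x) * (ad G u x * (1 + cd G u x))
        = ∑ u, ∑ x, ad G u x * ((1 + cd G u x) * (dg G u - cd G u x)) := by
          rw [Finset.sum_comm]
          refine Finset.sum_congr rfl fun u _ => ?_
          rw [Finset.sum_comm]
          refine Finset.sum_congr rfl fun x _ => ?_
          have : ∑ v, ad G v u * (1 - ad G v x) = dg G u - cd G u x := by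
            have h : ∀ v, ad G v u * (1 - ad G v x) = ad G u v - ad G u v * ad G v x := by
              intro v; rw [ad_symm G v u]; ring
            simp only [h, Finset.sum_sub_distrib]
            rfl
          rw [← Finset.sum_mul, this]
          ring
      _ ≤ ∑ u, ∑ x, ad G u x * ((Δ + 1) ^ 2 / 4) := by
          refine Finset.sum_le_sum fun u _ => Finset.sum_le_sum fun x _ => ?_
          refine mul_le_mul_of_nonneg_left ?_ (ad_nonneg G u x)
          have h1 := cd_nonneg G u x
          have h2 := hd u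
          have h3 : (1 + cd G u x) * (dg G u - cd G u x) ≤ (1 + cd G u x) * (Δ - cd G u x) :=
            mul_le_mul_of_nonneg_left (by linarith) (by linarith)
          nlinarith [sq_nonneg ((1 + cd G u x) - (Δ - cd G u x))]
      _ = (∑ u, dg G u) * ((Δ + 1) ^ 2 / 4) := by
          rw [Finset.sum_mul]
          refine Finset.sum_congr rfl fun u _ => ?_
          rw [← Finset.sum_mul]; rfl
      _ ≤ (n * Δ) * ((Δ + 1) ^ 2 / 4) :=
          mul_le_mul_of_nonneg_right (sum_dg_le hd) (by positivity)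
      _ = _ := by ring
  rw [step1, div_le_iff₀ hΔ]
  calc ∑ v, ∑ u, ∑ x, ad G v u * low v x * (cl G u x * ∑ y, ad G x y * cl G u y)
      ≤ ∑ v, ∑ u, ∑ x, (ad G v u * (eqi u x * Δ)
          + ad G v u * low v x * ad G v x * (ad G u x * (1 + cd G u x))
          + ad G v u * (1 - ad G v x) * (ad G u x * (1 + cd G u x))) :=
        Finset.sum_le_sum fun v _ => Finset.sum_le_sum fun u _ =>
          Finset.sum_le_sum fun x _ => pw v u x
    _ = (∑ v, ∑ u, ∑ x, ad G v u * (eqi u x * Δ))
        + (∑ v, ∑ u, ∑ x, ad G v u * low v x * ad G v x * (ad G u x * (1 + cd G u x)))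
        + ∑ v, ∑ u, ∑ x, ad G v u * (1 - ad G v x) * (ad G u x * (1 + cd G u x)) := by
        simp only [Finset.sum_add_distrib]
    _ ≤ _ := by
        nlinarith [s1, s2, s3]

open Classical in
/-- Summed bound for any function `P2` that satisfies the four elementary estimates. -/
lemma heart_sum (hΔ : 0 < Δ) (hd : ∀ x, dg G x ≤ Δ) {τ τ' t : ℝ} (hτ' : 0 < τ') (hττ : τ' ≤ τ)
    (ht : 0 ≤ t) (P2 : V → V → V → ℝ)
    (h1 : ∀ v x y, P2 v x y ≤ 1)
    (h2 : ∀ v x y, P2 v x y ≤ t * Fr G Δ v x)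
    (h3 : ∀ v x y, P2 v x y ≤ t * Fr G Δ v y)
    (h4 : ∀ v x y, P2 v x y ≤ t * Jr G Δ v x y + t ^ 2 * (Fr G Δ v x * Fr G Δ v y)) :
    ∑ v, ∑ x, ∑ y, ad G x y * P2 v x y
      ≤ Fintype.card V * (Δ * (Δ + 1) / τ + 2 * (t * τ' / τ) * (Δ * (Δ + 1))
          + t ^ 2 * τ' * (Δ * (Δ + 1)) + t * (Δ + Δ * τ' * (Δ + 1) + (Δ + 1) ^ 2 / 4))
        + 2 * t * Δ * ∑ v, ∑ x, (if τ' ≤ Fr G Δ v x ∧ Fr G Δ v x < τ then Fr G Δ v x else 0) := by
  have hτ : 0 < τ := lt_of_lt_of_le hτ' hττ
  set mid : V → V → ℝ :=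
    fun v x => if τ' ≤ Fr G Δ v x ∧ Fr G Δ v x < τ then Fr G Δ v x else 0 with hmid
  set low : V → V → ℝ := fun v x => if Fr G Δ v x < τ' then 1 else 0 with hlow
  have mid0 : ∀ v x, 0 ≤ mid v x := by
    intro v x; simp only [hmid]; split_ifs
    · exact Fr_nonneg hΔ v x
    · exact le_rfl
  have low0 : ∀ v x, 0 ≤ low v x := by intro v x; simp only [hlow]; split_ifs <;> norm_num
  have pw : ∀ v x y, P2 v x y ≤ (1 / τ + t * τ' / τ + t ^ 2 * τ') * Fr G Δ v x
      + (t * τ' / τ) * Fr G Δ v y + t * mid v x + t * mid v y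
      + t * (low v x * Jr G Δ v x y) := by
    intro v x y
    have Fx := Fr_nonneg (G := G) hΔ v x
    have Fy := Fr_nonneg (G := G) hΔ v y
    have J0 := Jr_nonneg (G := G) hΔ v x y
    have mx := mid0 v x
    have my := mid0 v y
    have c1 : 0 ≤ t * τ' / τ := by positivity
    have c2 : 0 ≤ t ^ 2 * τ' := by positivity
    have c3 : 0 ≤ 1 / τ := by positivity
    have p1 : 0 ≤ (1 / τ) * Fr G Δ v x := mul_nonneg c3 Fx
    have p2 : 0 ≤ (t * τ' / τ) * Fr G Δ v x := mul_nonneg c1 Fx
    have p3 : 0 ≤ (t ^ 2 * τ') * Fr G Δ v x := mul_nonneg c2 Fx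
    have p4 : 0 ≤ (t * τ' / τ) * Fr G Δ v y := mul_nonneg c1 Fy
    have p5 : 0 ≤ t * mid v x := mul_nonneg ht mx
    have p6 : 0 ≤ t * mid v y := mul_nonneg ht my
    have p7 : 0 ≤ t * (low v x * Jr G Δ v x y) := mul_nonneg ht (mul_nonneg (low0 v x) J0)
    have expand : (1 / τ + t * τ' / τ + t ^ 2 * τ') * Fr G Δ v x
        = (1 / τ) * Fr G Δ v x + (t * τ' / τ) * Fr G Δ v x + (t ^ 2 * τ') * Fr G Δ v x := by ring
    rw [expand]
    rcases lt_or_ge (Fr G Δ v x) τ' with hx | hx
    · rcases lt_or_ge (Fr G Δ v y) τ' with hy | hy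
      · -- both low
        have hl : low v x = 1 := by simp [hlow, hx]
        rw [hl] at p7 ⊢
        have := h4 v x y
        have h5 : t ^ 2 * (Fr G Δ v x * Fr G Δ v y) ≤ (t ^ 2 * τ') * Fr G Δ v x := by
          have : Fr G Δ v x * Fr G Δ v y ≤ Fr G Δ v x * τ' := mul_le_mul_of_nonneg_left hy.le Fx
          have t2 : 0 ≤ t ^ 2 := sq_nonneg t
          nlinarith
        linarith
      · rcases lt_or_ge (Fr G Δ v y) τ with hy' | hy'
        · -- y mid
          have hm : mid v y = Fr G Δ v y := by simp [hmid, hy, hy']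
          rw [hm] at p6 ⊢
          have := h3 v x y
          linarith
        · -- x low, y core
          have := h2 v x y
          have h6 : t * Fr G Δ v x ≤ (t * τ' / τ) * Fr G Δ v y := by
            have e1 : t * Fr G Δ v x ≤ t * τ' := mul_le_mul_of_nonneg_left hx.le ht
            have e2 : t * τ' = (t * τ' / τ) * τ := by field_simp
            have e3 : (t * τ' / τ) * τ ≤ (t * τ' / τ) * Fr G Δ v y :=
              mul_le_mul_of_nonneg_left hy' c1
            linarith
          linarith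
    · rcases lt_or_ge (Fr G Δ v x) τ with hx' | hx'
      · -- x mid
        have hm : mid v x = Fr G Δ v x := by simp [hmid, hx, hx']
        rw [hm] at p5 ⊢
        have := h2 v x y
        linarith
      · rcases lt_or_ge (Fr G Δ v y) τ' with hy | hy
        · -- x core, y low
          have := h3 v x y
          have h6 : t * Fr G Δ v y ≤ (t * τ' / τ) * Fr G Δ v x := by
            have e1 : t * Fr G Δ v y ≤ t * τ' := mul_le_mul_of_nonneg_left hy.le ht
            have e2 : t * τ' = (t * τ' / τ) * τ := by field_simp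
            have e3 : (t * τ' / τ) * τ ≤ (t * τ' / τ) * Fr G Δ v x :=
              mul_le_mul_of_nonneg_left hx' c1
            linarith
          linarith
        · rcases lt_or_ge (Fr G Δ v y) τ with hy' | hy'
          · have hm : mid v y = Fr G Δ v y := by simp [hmid, hy, hy']
            rw [hm] at p6 ⊢
            have := h3 v x y
            linarith
          · -- both core
            have := h1 v x y
            have h6 : 1 ≤ (1 / τ) * Fr G Δ v x := by
              have : (1 / τ) * τ ≤ (1 / τ) * Fr G Δ v x := mul_le_mul_of_nonneg_left hx' c3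
              have e : (1 / τ) * τ = 1 := by field_simp
              linarith
            linarith
  set n : ℝ := (Fintype.card V : ℝ) with hn
  have SF : ∑ v, ∑ x, Fr G Δ v x ≤ n * (Δ + 1) := by
    calc ∑ v, ∑ x, Fr G Δ v x ≤ ∑ _v : V, (Δ + 1) :=
          Finset.sum_le_sum fun v _ => sum_Fr_right hΔ hd v
      _ = _ := by rw [Finset.sum_const, nsmul_eq_mul, Finset.card_univ]
  have A1 : ∑ v, ∑ x, ∑ y, ad G x y * Fr G Δ v x ≤ n * (Δ * (Δ + 1)) := by
    calc ∑ v, ∑ x, ∑ y, ad G x y * Fr G Δ v x ≤ ∑ v, Δ * ∑ x, Fr G Δ v x :=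
          Finset.sum_le_sum fun v _ => sum_ad_mul_left hd (fun x => Fr_nonneg hΔ v x)
      _ = Δ * ∑ v, ∑ x, Fr G Δ v x := by rw [Finset.mul_sum]
      _ ≤ Δ * (n * (Δ + 1)) := mul_le_mul_of_nonneg_left SF hΔ.le
      _ = _ := by ring
  have A2 : ∑ v, ∑ x, ∑ y, ad G x y * Fr G Δ v y ≤ n * (Δ * (Δ + 1)) := by
    calc ∑ v, ∑ x, ∑ y, ad G x y * Fr G Δ v y ≤ ∑ v, Δ * ∑ x, Fr G Δ v x :=
          Finset.sum_le_sum fun v _ => sum_ad_mul_right hd (fun x => Fr_nonneg hΔ v x)
      _ = Δ * ∑ v, ∑ x, Fr G Δ v x := by rw [Finset.mul_sum]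
      _ ≤ Δ * (n * (Δ + 1)) := mul_le_mul_of_nonneg_left SF hΔ.le
      _ = _ := by ring
  have A3 : ∑ v, ∑ x, ∑ y, ad G x y * mid v x ≤ Δ * ∑ v, ∑ x, mid v x := by
    rw [Finset.mul_sum]
    exact Finset.sum_le_sum fun v _ => sum_ad_mul_left hd (mid0 v)
  have A4 : ∑ v, ∑ x, ∑ y, ad G x y * mid v y ≤ Δ * ∑ v, ∑ x, mid v x := by
    rw [Finset.mul_sum]
    exact Finset.sum_le_sum fun v _ => sum_ad_mul_right hd (mid0 v)
  have A5 := low_sum (G := G) hΔ hd hτ'
  calc ∑ v, ∑ x, ∑ y, ad G x y * P2 v x y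
      ≤ ∑ v, ∑ x, ∑ y, ((1 / τ + t * τ' / τ + t ^ 2 * τ') * (ad G x y * Fr G Δ v x)
        + (t * τ' / τ) * (ad G x y * Fr G Δ v y) + t * (ad G x y * mid v x)
        + t * (ad G x y * mid v y) + t * (ad G x y * (low v x * Jr G Δ v x y))) := by
        refine Finset.sum_le_sum fun v _ => Finset.sum_le_sum fun x _ =>
          Finset.sum_le_sum fun y _ => ?_
        have := mul_le_mul_of_nonneg_left (pw v x y) (ad_nonneg G x y)
        nlinarith [this]
    _ = (1 / τ + t * τ' / τ + t ^ 2 * τ') * (∑ v, ∑ x, ∑ y, ad G x y * Fr G Δ v x)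
        + (t * τ' / τ) * (∑ v, ∑ x, ∑ y, ad G x y * Fr G Δ v y)
        + t * (∑ v, ∑ x, ∑ y, ad G x y * mid v x)
        + t * (∑ v, ∑ x, ∑ y, ad G x y * mid v y)
        + t * (∑ v, ∑ x, ∑ y, ad G x y * (low v x * Jr G Δ v x y)) := by
        simp only [Finset.sum_add_distrib, Finset.mul_sum]
    _ ≤ (1 / τ + t * τ' / τ + t ^ 2 * τ') * (n * (Δ * (Δ + 1)))
        + (t * τ' / τ) * (n * (Δ * (Δ + 1)))
        + t * (Δ * ∑ v, ∑ x, mid v x)
        + t * (Δ * ∑ v, ∑ x, mid v x)
        + t * (n * (Δ + Δ * τ' * (Δ + 1) + (Δ + 1) ^ 2 / 4)) := by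
        gcongr
    _ = _ := by ring

end

end Frag
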