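import Pool.Agent.Work.MP_547619_co_helper96.Upper
import Pool.Agent.Work.MP_547619_co_h92.Lower

/-!
# The asymptotic values of both coefficients of fragmentability
-/

open Filter Topology

set_option linter.unusedSectionVars false

namespace Frag

/-- lower bound for the coefficient -/
theorem le_fragCoeff_max (d : ℕ) (a b : ℕ) (ha : 1 ≤ a) (hb : 1 ≤ b) (hab : a + b - 2 = d) :
    1 - 1 / (a : ℝ) - 1 / (b : ℝ) ≤ fragCoeff (maxDegClass d) := by
  rw [fragCoeff_eq]
  refine le_csInf (admSet_nonempty _) ?_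
  rintro lam ⟨_, k, hk⟩
  refine lower_bound a b ha hb (maxDegClass d) ?_ lam k hk
  intro n G hG
  rw [hab] at hG
  exact hG.1

theorem one_sub_max_le (d : ℕ) : (d : ℝ) * (1 - fragCoeff (maxDegClass d)) ≤ 4 := by
  have h := le_fragCoeff_max d ((d + 2) / 2) (d + 2 - (d + 2) / 2) (by omega) (by omega) (by omega)
  set a : ℕ := (d + 2) / 2 with ha
  set b : ℕ := d + 2 - a with hb
  have h1 : ((d : ℝ) + 1) / 2 ≤ a := by
    have : d + 1 ≤ 2 * a := by omega
    have : ((d : ℝ) + 1) ≤ 2 * a := by exact_mod_cast this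
    linarith
  have h2 : ((d : ℝ) + 1) / 2 ≤ b := by
    have : d + 1 ≤ 2 * b := by omega
    have : ((d : ℝ) + 1) ≤ 2 * b := by exact_mod_cast this
    linarith
  have hd0 : (0 : ℝ) ≤ d := Nat.cast_nonneg d
  have h3 : 1 / (a : ℝ) ≤ 2 / ((d : ℝ) + 1) := by
    have : 1 / (a : ℝ) ≤ 1 / (((d : ℝ) + 1) / 2) := one_div_le_one_div_of_le (by linarith) h1
    calc _ ≤ _ := this
      _ = _ := by field_simp
  have h4 : 1 / (b : ℝ) ≤ 2 / ((d : ℝ) + 1) := by
    have : 1 / (b : ℝ) ≤ 1 / (((d : ℝ) + 1) / 2) := one_div_le_one_div_of_le (by linarith) h2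
    calc _ ≤ _ := this
      _ = _ := by field_simp
  have h5 : 1 - fragCoeff (maxDegClass d) ≤ 4 / ((d : ℝ) + 1) := by
    have : (4 : ℝ) / ((d : ℝ) + 1) = 2 / ((d : ℝ) + 1) + 2 / ((d : ℝ) + 1) := by ring
    linarith
  calc (d : ℝ) * (1 - fragCoeff (maxDegClass d)) ≤ (d : ℝ) * (4 / ((d : ℝ) + 1)) :=
        mul_le_mul_of_nonneg_left h5 hd0
    _ ≤ 4 := by
        rw [mul_div_assoc', div_le_iff₀ (by linarith)]
        linarith

theorem max_le_avg (d : ℕ) : fragCoeff (maxDegClass d) ≤ fragCoeff (avgDegClass d) :=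
  fragCoeff_mono fun n G h => maxDeg_sub_avgDeg d n G h

theorem eventually_avg {ε : ℝ} (hε : 0 < ε) :
    ∀ᶠ d : ℕ in atTop, 4 - ε ≤ (d : ℝ) * (1 - fragCoeff (avgDegClass d)) := by
  obtain ⟨M, K, hM, hB⟩ := bound_lt_four (ε := ε / 2) (by linarith)
  obtain ⟨N, hN⟩ := exists_nat_gt (8 * M / ε + 4)
  filter_upwards [eventually_ge_atTop N] with d hd
  have hdN : (N : ℝ) ≤ d := by exact_mod_cast hd
  have hME : 0 < 8 * M / ε := by positivity
  have hd4 : 4 < (d : ℝ) := by linarith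
  have hdM : 0 < (d : ℝ) + M := by linarith
  have h := fragCoeff_avg_le hM hB d (by linarith)
  have h1 : (4 - ε / 2) / (d + M) ≤ 1 - fragCoeff (avgDegClass d) := by linarith
  have h2 : (d : ℝ) * ((4 - ε / 2) / (d + M)) ≤ (d : ℝ) * (1 - fragCoeff (avgDegClass d)) :=
    mul_le_mul_of_nonneg_left h1 (by linarith)
  refine le_trans ?_ h2
  rw [mul_div_assoc', le_div_iff₀ hdM]
  have h3 : 8 * M < ε * d := by
    have : 8 * M / ε < d := by linarith
    rw [div_lt_iff₀ hε] at this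
    linarith
  nlinarith

/-- **Main theorem.** `d (1 - c_f(Γ_d)) → 4` and the same for the average degree classes. -/
theorem main_limits :
    Tendsto (fun d : ℕ => (d : ℝ) * (1 - fragCoeff (maxDegClass d))) atTop (𝓝 4) ∧
    Tendsto (fun d : ℕ => (d : ℝ) * (1 - fragCoeff (avgDegClass d))) atTop (𝓝 4) := by
  have hmono : ∀ d : ℕ, (d : ℝ) * (1 - fragCoeff (avgDegClass d))
      ≤ (d : ℝ) * (1 - fragCoeff (maxDegClass d)) := fun d =>
    mul_le_mul_of_nonneg_left (by linarith [max_le_avg d]) (Nat.cast_nonneg d)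
  constructor
  · rw [Metric.tendsto_atTop']
    intro ε hε
    obtain ⟨N, hN⟩ := (eventually_atTop).mp (eventually_avg (ε := ε / 2) (by linarith))
    refine ⟨N, fun d hd => ?_⟩
    have h1 := hN d hd.le
    have h2 := hmono d
    have h3 := one_sub_max_le d
    rw [Real.dist_eq, abs_lt]
    constructor <;> linarith
  · rw [Metric.tendsto_atTop']
    intro ε hε
    obtain ⟨N, hN⟩ := (eventually_atTop).mp (eventually_avg (ε := ε / 2) (by linarith))
    refine ⟨N, fun d hd => ?_⟩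
    have h1 := hN d hd.le
    have h2 := hmono d
    have h3 := one_sub_max_le d
    rw [Real.dist_eq, abs_lt]
    constructor <;> linarith

end Frag
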