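import Mathlib

/-!
# Coefficients of fragmentability: definitions (MP_547619_co)
-/

namespace Frag

/-- `TreeWidthLE G k`: the graph `G` has a tree decomposition of width at most `k`:
a finite tree `T`, a bag (finite set of vertices of `G`) of size at most `k + 1` at every node of `T`,
such that every vertex and every edge of `G` lies in a bag, and for every vertex `v` the nodes whose
bags contain `v` induce a connected subgraph of `T`. -/
def TreeWidthLE {V : Type*} (G : SimpleGraph V) (k : ℕ) : Prop :=
  ∃ (m : ℕ) (T : SimpleGraph (Fin m)) (bag : Fin m → Finset V),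
    T.IsTree ∧
    (∀ v : V, ∃ i, v ∈ bag i) ∧
    (∀ u v : V, G.Adj u v → ∃ i, u ∈ bag i ∧ v ∈ bag i) ∧
    (∀ v : V, (T.induce {i | v ∈ bag i}).Connected) ∧
    (∀ i, (bag i).card ≤ k + 1)

/-- A class of finite graphs, given on the vertex sets `Fin n`. -/
abbrev GraphClass := ∀ n : ℕ, SimpleGraph (Fin n) → Prop

/-- The coefficient of fragmentability of a class of graphs: the infimum of all `lam ≥ 0` for which
some `k` exists such that every graph `G` of the class can be turned into a graph of tree-width at
most `k` by deleting a set `S` of at most `lam * |V(G)|` vertices. -/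
noncomputable def fragCoeff (C : GraphClass) : ℝ :=
  sInf {lam : ℝ | 0 ≤ lam ∧ ∃ k : ℕ, ∀ (n : ℕ) (G : SimpleGraph (Fin n)), C n G →
    ∃ S : Finset (Fin n), (S.card : ℝ) ≤ lam * (n : ℝ) ∧
      TreeWidthLE (G.induce {v | v ∉ S}) k}

/-- The class `Γ_d` of all finite graphs of maximum degree at most `d`. -/
def maxDegClass (d : ℕ) : GraphClass :=
  fun _ G => ∀ v, (G.neighborSet v).ncard ≤ d

/-- The class of all finite graphs of average degree at most `d` (that is, `2|E| ≤ d|V|`). -/
def avgDegClass (d : ℕ) : GraphClass :=
  fun n G => 2 * G.edgeSet.ncard ≤ d * n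

end Frag
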