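import Pool.Agent.Work.MP_547619_co_helper96.Adj

/-!
# The potential `θ n² / (E + M n)` and induction by deleting closed neighbourhoods
-/

open Finset

set_option linter.unusedSectionVars false

namespace Frag

/-- `W` splits into classes of size at most `K`, with no edges of `G` between different classes. -/
def Small {V : Type*} (K : ℕ) (G : SimpleGraph V) (W : Finset V) : Prop :=
  ∃ f : V → ℕ, (∀ u ∈ W, ∀ v ∈ W, G.Adj u v → f u = f v) ∧
    ∀ i, {x ∈ W | f x = i}.card ≤ K

lemma small_empty {V : Type*} (K : ℕ) (G : SimpleGraph V) : Small K G (∅ : Finset V) :=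
  ⟨fun _ => 0, by simp, by simp⟩

lemma Small.mono {V : Type*} {K K' : ℕ} {G : SimpleGraph V} {W : Finset V} (h : Small K G W)
    (hK : K ≤ K') : Small K' G W := by
  obtain ⟨f, h1, h2⟩ := h
  exact ⟨f, h1, fun i => (h2 i).trans hK⟩

/-- total degree -/
noncomputable def ed {V : Type*} [Fintype V] (G : SimpleGraph V) : ℝ := ∑ x, dg G x

/-- ordered adjacent pairs inside `R` -/
noncomputable def eR {V : Type*} [Fintype V] (G : SimpleGraph V) (R : Finset V) : ℝ :=
  ∑ x ∈ R, ∑ y ∈ R, ad G x y

/-- The Turan type statement with parameters `θ, M, K` for all finite graphs. -/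
def Bound (θ M : ℝ) (K : ℕ) : Prop :=
  ∀ (V : Type) [Fintype V] (G : SimpleGraph V), ∃ W : Finset V, Small K G W ∧
    θ * (Fintype.card V : ℝ) ^ 2 ≤ (W.card : ℝ) * (ed G + M * Fintype.card V)

section removal
variable {V : Type} [Fintype V] (G : SimpleGraph V) (R : Finset V)

/-- the graph with `R` deleted -/
abbrev del : SimpleGraph {x : V // x ∉ R} := G.comap Subtype.val

lemma ad_del (x y : {x : V // x ∉ R}) : ad (del G R) x y = ad G x.1 y.1 := by
  unfold ad
  by_cases h : G.Adj x.1 y.1
  · rw [if_pos h, if_pos (show (del G R).Adj x y from h)]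
  · rw [if_neg h, if_neg (show ¬ (del G R).Adj x y from h)]

lemma sum_del [Fintype {x : V // x ∉ R}] (f : V → ℝ) :
    ∑ x : {x : V // x ∉ R}, f x.1 = ∑ x, f x - ∑ x ∈ R, f x := by
  classical
  have h1 : ∑ x : {x : V // x ∉ R}, f x.1 = ∑ x ∈ Rᶜ, f x := by
    refine Finset.sum_bij' (fun x _ => x.1) (fun x hx => ⟨x, by simpa using hx⟩) ?_ ?_ ?_ ?_ ?_
    · intro a _; simpa using a.2
    · intro a _; exact Finset.mem_univ _
    · intro a _; rfl
    · intro a _; rfl
    · intro a _; rfl
  rw [h1, ← Finset.sum_add_sum_compl R f]
  ring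

lemma card_del [Fintype {x : V // x ∉ R}] : (Fintype.card {x : V // x ∉ R} : ℝ) = Fintype.card V - R.card := by
  classical
  have := sum_del R (fun _ => (1:ℝ))
  simpa using this

lemma ed_del [Fintype {x : V // x ∉ R}] : ed (del G R) = ed G - 2 * ∑ x ∈ R, dg G x + eR G R := by
  classical
  unfold ed
  have h1 : ∀ x : {x : V // x ∉ R}, dg (del G R) x = dg G x.1 - ∑ y ∈ R, ad G x.1 y := by
    intro x
    unfold dg
    simp only [ad_del]
    exact sum_del R (fun y => ad G x.1 y)
  simp only [h1]
  rw [sum_del R (fun x => dg G x - ∑ y ∈ R, ad G x y)]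
  rw [Finset.sum_sub_distrib, Finset.sum_sub_distrib]
  have h2 : ∑ x, ∑ y ∈ R, ad G x y = ∑ y ∈ R, dg G y := by
    rw [Finset.sum_comm]
    exact Finset.sum_congr rfl fun y _ => sum_ad_left G y
  rw [h2]
  unfold eR
  ring

end removal

lemma ed_nonneg {V : Type*} [Fintype V] (G : SimpleGraph V) : 0 ≤ ed G :=
  Finset.sum_nonneg fun x _ => dg_nonneg G x

/-- algebra of the potential -/
lemma potential_algebra {θ ρ n n' Z w' T : ℝ} (hρ : 0 < ρ) (hZ : 0 ≤ Z)
    (hZ0 : Z = 0 → n' = 0) (hθ : 0 ≤ θ) (hw' : 0 ≤ w')
    (hIH : θ * n' ^ 2 ≤ w' * Z)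
    (hstep : θ * (n * ρ - 2 * ρ * n' + Z) ≤ T * ρ ^ 2) :
    θ * n ≤ (w' + T) * ρ := by
  have key : θ * n * ρ ≤ (w' + T) * ρ ^ 2 := by
    rcases hZ.eq_or_lt with h | h
    · have hn0 := hZ0 h.symm
      rw [← h, hn0] at hstep
      have : 0 ≤ w' * ρ ^ 2 := by positivity
      nlinarith
    · have h1 : θ * (2 * ρ * n' - Z) ≤ w' * ρ ^ 2 := by
        have h2 : θ * (2 * ρ * n' - Z) * Z ≤ (w' * ρ ^ 2) * Z := by
          have h3 : (2 * ρ * n' - Z) * Z ≤ (n' * ρ) ^ 2 := by nlinarith [sq_nonneg (n' * ρ - Z)]
          calc θ * (2 * ρ * n' - Z) * Z = θ * ((2 * ρ * n' - Z) * Z) := by ring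
            _ ≤ θ * (n' * ρ) ^ 2 := mul_le_mul_of_nonneg_left h3 hθ
            _ = (θ * n' ^ 2) * ρ ^ 2 := by ring
            _ ≤ (w' * Z) * ρ ^ 2 := mul_le_mul_of_nonneg_right hIH (by positivity)
            _ = _ := by ring
        exact le_of_mul_le_mul_right h2 h
      nlinarith
  have : θ * n * ρ ≤ ((w' + T) * ρ) * ρ := by nlinarith
  exact le_of_mul_le_mul_right this hρ

/-- A step: a set `R` to delete and a set `T ⊆ R` to keep, with all neighbours of `T` in `R`. -/
def HasStep {V : Type} [Fintype V] (G : SimpleGraph V) (θ M : ℝ) (K : ℕ) : Prop :=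
  ∃ R T : Finset V, R.Nonempty ∧ T ⊆ R ∧ T.card ≤ K ∧ (∀ x ∈ T, ∀ y, G.Adj x y → y ∈ R) ∧
    ∀ D : ℝ, (Fintype.card V : ℝ) * D = ed G →
      θ * ((∑ x ∈ R, (2 * (D - dg G x) + M)) + eR G R) ≤ (T.card : ℝ) * (D + M) ^ 2

theorem bound_of_step {θ M : ℝ} {K : ℕ} (hθ : 0 ≤ θ) (hM : 0 < M)
    (hstep : ∀ (V : Type) [Fintype V] (G : SimpleGraph V), Nonempty V →
      (∃ W : Finset V, Small K G W ∧
        θ * (Fintype.card V : ℝ) ^ 2 ≤ (W.card : ℝ) * (ed G + M * Fintype.card V)) ∨
      HasStep G θ M K) : Bound θ M K := by
  have main : ∀ (N : ℕ) (V : Type) [Fintype V] (G : SimpleGraph V), Fintype.card V = N →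
      ∃ W : Finset V, Small K G W ∧
        θ * (Fintype.card V : ℝ) ^ 2 ≤ (W.card : ℝ) * (ed G + M * Fintype.card V) := by
    intro N
    induction N using Nat.strong_induction_on with
    | _ N ih =>
      intro V _ G hN
      classical
      rcases isEmpty_or_nonempty V with hV | hV
      · refine ⟨∅, small_empty K G, ?_⟩
        simp
      rcases hstep V G hV with h | ⟨R, T, hR, hTR, hTK, hadj, hineq⟩
      · exact h
      have hcardlt : Fintype.card {x : V // x ∉ R} < N := by
        rw [← hN]
        obtain ⟨r, hr⟩ := hR
        exact Fintype.card_subtype_lt (x := r) (by simpa using hr)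
      obtain ⟨W', hW', hW'2⟩ := ih _ hcardlt {x : V // x ∉ R} (del G R) rfl
      obtain ⟨f, hf1, hf2⟩ := hW'
      have hdisj : Disjoint T (W'.map ⟨Subtype.val, Subtype.val_injective⟩) := by
        rw [Finset.disjoint_left]
        intro x hxT hxW
        rw [Finset.mem_map] at hxW
        obtain ⟨y, _, hy⟩ := hxW
        exact y.2 (by simpa [← hy] using hTR hxT)
      refine ⟨T ∪ W'.map ⟨Subtype.val, Subtype.val_injective⟩, ?_, ?_⟩
      · refine ⟨fun x => if h : x ∉ R then f ⟨x, h⟩ + 1 else 0, ?_, ?_⟩
        · intro u hu v hv huv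
          rw [Finset.mem_union] at hu hv
          have hT : ∀ x, x ∈ T → ¬ (x ∉ R) := fun x hx => not_not.mpr (hTR hx)
          have hW : ∀ x, x ∈ W'.map ⟨Subtype.val, Subtype.val_injective⟩ →
              ∃ h : x ∉ R, (⟨x, h⟩ : {x : V // x ∉ R}) ∈ W' := by
            intro x hx
            rw [Finset.mem_map] at hx
            obtain ⟨y, hy, hyx⟩ := hx
            simp only [Function.Embedding.coeFn_mk] at hyx
            subst hyx
            exact ⟨y.2, hy⟩
          beta_reduce
          rcases hu with hu | hu <;> rcases hv with hv | hv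
          · rw [dif_neg (hT u hu), dif_neg (hT v hv)]
          · exact absurd (hadj u hu v huv) (hW v hv).1
          · exact absurd (hadj v hv u huv.symm) (hW u hu).1
          · obtain ⟨h1, h2⟩ := hW u hu
            obtain ⟨h3, h4⟩ := hW v hv
            rw [dif_pos h1, dif_pos h3]
            rw [hf1 _ h2 _ h4 huv]
        · intro i
          rcases i with _ | i
          · refine le_trans (Finset.card_le_card ?_) hTK
            intro x hx
            rw [Finset.mem_filter, Finset.mem_union] at hx
            rcases hx.1 with h | h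
            · exact h
            · rw [Finset.mem_map] at h
              obtain ⟨y, _, hyx⟩ := h
              simp only [Function.Embedding.coeFn_mk] at hyx
              subst hyx
              have := hx.2
              beta_reduce at this
              rw [dif_pos y.2] at this
              omega
          · refine le_trans ?_ (hf2 i)
            have : {x ∈ T ∪ W'.map ⟨Subtype.val, Subtype.val_injective⟩ |
                (if h : x ∉ R then f ⟨x, h⟩ + 1 else 0) = i + 1}
                ⊆ ({x ∈ W' | f x = i}).map ⟨Subtype.val, Subtype.val_injective⟩ := by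
              intro x hx
              rw [Finset.mem_filter, Finset.mem_union] at hx
              rcases hx.1 with h | h
              · have h2 := hx.2
                beta_reduce at h2
                rw [dif_neg (not_not.mpr (hTR h))] at h2
                omega
              · rw [Finset.mem_map] at h ⊢
                obtain ⟨y, hy, hyx⟩ := h
                refine ⟨y, ?_, hyx⟩
                rw [Finset.mem_filter]
                refine ⟨hy, ?_⟩
                simp only [Function.Embedding.coeFn_mk] at hyx
                subst hyx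
                have := hx.2
                beta_reduce at this
                rw [dif_pos y.2] at this
                simpa using this
            calc _ ≤ (({x ∈ W' | f x = i}).map ⟨Subtype.val, Subtype.val_injective⟩).card :=
                  Finset.card_le_card this
              _ = _ := Finset.card_map _
      · -- numerical part
        have hnpos : 0 < (Fintype.card V : ℝ) := by
          exact_mod_cast Fintype.card_pos
        set n : ℝ := (Fintype.card V : ℝ) with hn
        set D : ℝ := ed G / n with hD
        have hnD : n * D = ed G := by rw [hD]; field_simp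
        have hD0 : 0 ≤ D := div_nonneg (ed_nonneg G) hnpos.le
        have hst := hineq D hnD
        have hcard : ((T ∪ W'.map ⟨Subtype.val, Subtype.val_injective⟩).card : ℝ)
            = (W'.card : ℝ) + T.card := by
          rw [Finset.card_union_of_disjoint hdisj, Finset.card_map]
          push_cast
          ring
        have hn' : (Fintype.card {x : V // x ∉ R} : ℝ) = n - R.card := card_del R
        set n' : ℝ := (Fintype.card {x : V // x ∉ R} : ℝ) with hn'def
        have hn'0 : 0 ≤ n' := Nat.cast_nonneg _
        set Z : ℝ := ed (del G R) + M * n' with hZ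
        have hZ0 : 0 ≤ Z := add_nonneg (ed_nonneg _) (mul_nonneg hM.le hn'0)
        have hsum : (∑ x ∈ R, (2 * (D - dg G x) + M)) + eR G R
            = n * (D + M) - 2 * (D + M) * n' + Z := by
          have h1 : (∑ x ∈ R, (2 * (D - dg G x) + M))
              = (2 * D + M) * R.card - 2 * ∑ x ∈ R, dg G x := by
            rw [Finset.mul_sum]
            have : ∀ x ∈ R, 2 * (D - dg G x) + M = (2 * D + M) - 2 * dg G x := by
              intro x _; ring
            rw [Finset.sum_congr rfl this, Finset.sum_sub_distrib, Finset.sum_const, nsmul_eq_mul]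
            ring
          rw [h1, hZ, ed_del]
          have h2 : (R.card : ℝ) = n - n' := by rw [hn']; ring
          rw [h2, ← hnD]
          ring
        have := potential_algebra (θ := θ) (ρ := D + M) (n := n) (n' := n') (Z := Z)
          (w' := W'.card) (T := T.card) (by linarith) hZ0
          (fun h => by
            have h1 : M * n' ≤ 0 := by
              have := ed_nonneg (del G R)
              linarith
            have : n' ≤ 0 := by
              by_contra hc
              push Not at hc
              have := mul_pos hM hc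
              linarith
            linarith) hθ (Nat.cast_nonneg _) hW'2 (by rw [← hsum]; exact hst)
        rw [hcard]
        have e1 : ed G + M * n = n * (D + M) := by rw [← hnD]; ring
        rw [e1]
        calc θ * n ^ 2 = (θ * n) * n := by ring
          _ ≤ (((W'.card : ℝ) + T.card) * (D + M)) * n :=
              mul_le_mul_of_nonneg_right this hnpos.le
          _ = _ := by ring
  intro V _ G
  exact main _ V G rfl

end Frag
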