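import Mathlib

/-!
# Independent samples from a finite probability space (finite sums only)
-/

open Finset

set_option linter.unusedSectionVars false

namespace Frag

open Classical in
/-- Expectation of `f` over `t` independent samples from the weight `p`. -/
noncomputable def Ex {α : Type*} [Fintype α] (p : α → ℝ) (t : ℕ) (f : (Fin t → α) → ℝ) : ℝ :=
  ∑ ω : Fin t → α, (∏ i, p (ω i)) * f ω

section
variable {α : Type*} [Fintype α] {p : α → ℝ} {t : ℕ}

lemma prod_nonneg' (hp : ∀ a, 0 ≤ p a) (ω : Fin t → α) : 0 ≤ ∏ i, p (ω i) :=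
  Finset.prod_nonneg fun i _ => hp (ω i)

lemma Ex_mono (hp : ∀ a, 0 ≤ p a) {f g : (Fin t → α) → ℝ} (h : ∀ ω, f ω ≤ g ω) :
    Ex p t f ≤ Ex p t g := by
  unfold Ex
  exact Finset.sum_le_sum fun ω _ => mul_le_mul_of_nonneg_left (h ω) (prod_nonneg' hp ω)

lemma Ex_add (f g : (Fin t → α) → ℝ) : Ex p t (fun ω => f ω + g ω) = Ex p t f + Ex p t g := by
  unfold Ex
  rw [← Finset.sum_add_distrib]
  exact Finset.sum_congr rfl fun ω _ => by ring

lemma Ex_sub (f g : (Fin t → α) → ℝ) : Ex p t (fun ω => f ω - g ω) = Ex p t f - Ex p t g := by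
  unfold Ex
  rw [← Finset.sum_sub_distrib]
  exact Finset.sum_congr rfl fun ω _ => by ring

lemma Ex_mul (c : ℝ) (f : (Fin t → α) → ℝ) : Ex p t (fun ω => c * f ω) = c * Ex p t f := by
  unfold Ex
  rw [Finset.mul_sum]
  exact Finset.sum_congr rfl fun ω _ => by ring

lemma Ex_sum {ι : Type*} (s : Finset ι) (f : ι → (Fin t → α) → ℝ) :
    Ex p t (fun ω => ∑ k ∈ s, f k ω) = ∑ k ∈ s, Ex p t (f k) := by
  unfold Ex
  rw [Finset.sum_comm]
  exact Finset.sum_congr rfl fun ω _ => by rw [Finset.mul_sum]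

lemma Ex_const (h1 : ∑ a, p a = 1) (c : ℝ) : Ex p t (fun _ => c) = c := by
  unfold Ex
  rw [← Finset.sum_mul]
  have : (∑ ω : Fin t → α, ∏ i, p (ω i)) = ∏ _i : Fin t, ∑ a, p a := by
    rw [Finset.prod_univ_sum]
    simp
  rw [this, h1]
  simp

lemma Ex_one (h1 : ∑ a, p a = 1) (i : Fin t) (g : α → ℝ) :
    Ex p t (fun ω => g (ω i)) = ∑ a, p a * g a := by
  classical
  unfold Ex
  have key : ∀ ω : Fin t → α, (∏ j, p (ω j)) * g (ω i)
      = ∏ j, (p (ω j) * (if j = i then g (ω j) else 1)) := by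
    intro ω
    rw [Finset.prod_mul_distrib]
    simp
  simp only [key]
  have := Finset.prod_univ_sum (fun _ : Fin t => (Finset.univ : Finset α))
    (fun j a => p a * (if j = i then g a else 1))
  rw [Fintype.piFinset_univ] at this
  rw [← this]
  have h2 : ∀ j : Fin t, (∑ a, p a * (if j = i then g a else 1))
      = if j = i then (∑ a, p a * g a) else 1 := by
    intro j
    by_cases hj : j = i
    · simp [hj]
    · simp [hj, h1]
  simp only [h2]
  simp

lemma Ex_two (h1 : ∑ a, p a = 1) {i j : Fin t} (hij : i ≠ j) (g h : α → ℝ) :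
    Ex p t (fun ω => g (ω i) * h (ω j)) = (∑ a, p a * g a) * (∑ a, p a * h a) := by
  classical
  unfold Ex
  have key : ∀ ω : Fin t → α, (∏ k, p (ω k)) * (g (ω i) * h (ω j))
      = ∏ k, (p (ω k) * ((if k = i then g (ω k) else 1) * (if k = j then h (ω k) else 1))) := by
    intro ω
    rw [Finset.prod_mul_distrib, Finset.prod_mul_distrib]
    simp
  simp only [key]
  have := Finset.prod_univ_sum (fun _ : Fin t => (Finset.univ : Finset α))
    (fun k a => p a * ((if k = i then g a else 1) * (if k = j then h a else 1)))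
  rw [Fintype.piFinset_univ] at this
  rw [← this]
  have h2 : ∀ k : Fin t, (∑ a, p a * ((if k = i then g a else 1) * (if k = j then h a else 1)))
      = (if k = i then (∑ a, p a * g a) else 1) * (if k = j then (∑ a, p a * h a) else 1) := by
    intro k
    by_cases hk : k = i
    · have : k ≠ j := fun h => hij (hk ▸ h)
      simp [hk, hij]
    · by_cases hk' : k = j
      · simp [hk', hij.symm]
      · simp [hk, hk', h1]
  simp only [h2]
  rw [Finset.prod_mul_distrib]
  simp

open Classical in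
/-- indicator that one of the samples lies in `A` -/
noncomputable def hit (A : α → Prop) (ω : Fin t → α) : ℝ := if ∃ i, A (ω i) then 1 else 0

open Classical in
/-- indicator of a predicate -/
noncomputable def ind (A : α → Prop) (a : α) : ℝ := if A a then 1 else 0

/-- probability of a predicate -/
noncomputable def Pr (p : α → ℝ) (A : α → Prop) : ℝ := ∑ a, p a * ind A a

lemma ind_nonneg (A : α → Prop) (a : α) : 0 ≤ ind A a := by
  unfold ind; split_ifs <;> norm_num

lemma ind_le_one (A : α → Prop) (a : α) : ind A a ≤ 1 := by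
  unfold ind; split_ifs <;> norm_num

lemma hit_nonneg (A : α → Prop) (ω : Fin t → α) : 0 ≤ hit A ω := by
  unfold hit; split_ifs <;> norm_num

lemma hit_le_one (A : α → Prop) (ω : Fin t → α) : hit A ω ≤ 1 := by
  unfold hit; split_ifs <;> norm_num

lemma hit_le_sum (A : α → Prop) (ω : Fin t → α) : hit A ω ≤ ∑ i, ind A (ω i) := by
  unfold hit
  split_ifs with h
  · obtain ⟨i, hi⟩ := h
    calc (1 : ℝ) = ind A (ω i) := by simp [ind, hi]
      _ ≤ ∑ i, ind A (ω i) :=
        Finset.single_le_sum (f := fun i => ind A (ω i)) (fun i _ => ind_nonneg A (ω i))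
          (Finset.mem_univ i)
  · exact Finset.sum_nonneg fun i _ => ind_nonneg A (ω i)

lemma Pr_nonneg (hp : ∀ a, 0 ≤ p a) (A : α → Prop) : 0 ≤ Pr p A :=
  Finset.sum_nonneg fun a _ => mul_nonneg (hp a) (ind_nonneg A a)

lemma Ex_hit_le (hp : ∀ a, 0 ≤ p a) (h1 : ∑ a, p a = 1) (A : α → Prop) :
    Ex p t (hit A) ≤ t * Pr p A := by
  calc Ex p t (hit A) ≤ Ex p t (fun ω => ∑ i, ind A (ω i)) := Ex_mono hp (hit_le_sum A)
    _ = ∑ i : Fin t, Ex p t (fun ω => ind A (ω i)) := Ex_sum _ _
    _ = ∑ _i : Fin t, Pr p A := Finset.sum_congr rfl fun i _ => Ex_one h1 i (ind A)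
    _ = t * Pr p A := by simp

lemma Ex_hit_le_one (hp : ∀ a, 0 ≤ p a) (h1 : ∑ a, p a = 1) (A B : α → Prop) :
    Ex p t (fun ω => hit A ω * hit B ω) ≤ 1 := by
  calc Ex p t (fun ω => hit A ω * hit B ω) ≤ Ex p t (fun _ => (1 : ℝ)) :=
        Ex_mono hp (fun ω => by
          nlinarith [hit_nonneg A ω, hit_nonneg B ω, hit_le_one A ω, hit_le_one B ω])
    _ = 1 := Ex_const h1 1

lemma Ex_hit_mul_le_left (hp : ∀ a, 0 ≤ p a) (h1 : ∑ a, p a = 1) (A B : α → Prop) :
    Ex p t (fun ω => hit A ω * hit B ω) ≤ t * Pr p A := by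
  refine le_trans (Ex_mono hp (fun ω => ?_)) (Ex_hit_le hp h1 A)
  nlinarith [hit_nonneg A ω, hit_nonneg B ω, hit_le_one A ω, hit_le_one B ω]

lemma Ex_hit_mul_le_right (hp : ∀ a, 0 ≤ p a) (h1 : ∑ a, p a = 1) (A B : α → Prop) :
    Ex p t (fun ω => hit A ω * hit B ω) ≤ t * Pr p B := by
  refine le_trans (Ex_mono hp (fun ω => ?_)) (Ex_hit_le hp h1 B)
  nlinarith [hit_nonneg A ω, hit_nonneg B ω, hit_le_one A ω, hit_le_one B ω]

lemma Ex_hit_two_le (hp : ∀ a, 0 ≤ p a) (h1 : ∑ a, p a = 1) (A B : α → Prop) :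
    Ex p t (fun ω => hit A ω * hit B ω)
      ≤ t * Pr p (fun a => A a ∧ B a) + (t : ℝ) ^ 2 * (Pr p A * Pr p B) := by
  have hAB : 0 ≤ Pr p A * Pr p B := mul_nonneg (Pr_nonneg hp A) (Pr_nonneg hp B)
  calc Ex p t (fun ω => hit A ω * hit B ω)
      ≤ Ex p t (fun ω => ∑ i, ∑ j, ind A (ω i) * ind B (ω j)) := by
        refine Ex_mono hp (fun ω => ?_)
        calc hit A ω * hit B ω ≤ (∑ i, ind A (ω i)) * (∑ j, ind B (ω j)) :=
              mul_le_mul (hit_le_sum A ω) (hit_le_sum B ω) (hit_nonneg B ω)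
                (Finset.sum_nonneg fun i _ => ind_nonneg A (ω i))
          _ = ∑ i, ∑ j, ind A (ω i) * ind B (ω j) := by
              rw [Finset.sum_mul_sum]
    _ = ∑ i : Fin t, ∑ j : Fin t, Ex p t (fun ω => ind A (ω i) * ind B (ω j)) := by
        rw [Ex_sum]
        exact Finset.sum_congr rfl fun i _ => Ex_sum _ _
    _ ≤ ∑ i : Fin t, ∑ j : Fin t, ((if i = j then Pr p (fun a => A a ∧ B a) else 0)
          + Pr p A * Pr p B) := by
        refine Finset.sum_le_sum fun i _ => Finset.sum_le_sum fun j _ => ?_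
        by_cases hij : i = j
        · subst hij
          have : Ex p t (fun ω => ind A (ω i) * ind B (ω i)) = Pr p (fun a => A a ∧ B a) := by
            have h2 := Ex_one h1 i (fun a => ind A a * ind B a)
            rw [h2]
            unfold Pr ind
            refine Finset.sum_congr rfl fun a _ => ?_
            by_cases hA : A a <;> by_cases hB : B a <;> simp [hA, hB]
          rw [this]
          simp [hAB]
        · rw [Ex_two h1 hij (ind A) (ind B)]
          simp [hij, Pr]
    _ = t * Pr p (fun a => A a ∧ B a) + (t : ℝ) ^ 2 * (Pr p A * Pr p B) := by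
        simp [Finset.sum_add_distrib]
        ring

end

end Frag
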