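import Pool.Agent.Work.MP_547619_co_helper96.Adj
import Pool.Agent.Work.MP_547619_co_helper96.Sampling

/-!
# Random neighbours of a random vertex: the expected number of edges in the closed neighbourhood
-/

open Finset

set_option linter.unusedSectionVars false

namespace Frag

section
variable {V : Type*} [Fintype V] (G : SimpleGraph V) (Δ : ℝ)

/-- weight of a sample at `v`: every neighbour has probability `1/Δ`, otherwise null -/
noncomputable def pw (v : V) : Option V → ℝ
  | none => 1 - dg G v / Δ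
  | some u => ad G v u / Δ

/-- the sample is a vertex whose closed neighbourhood contains `x` -/
def nr (x : V) : Option V → Prop
  | none => False
  | some u => u = x ∨ G.Adj u x

/-- the sample is the vertex `x` -/
def at' (x : V) : Option V → Prop
  | none => False
  | some u => u = x

variable {G Δ}

lemma pw_nonneg (hΔ : 0 < Δ) (hd : ∀ x, dg G x ≤ Δ) (v : V) : ∀ a, 0 ≤ pw G Δ v a := by
  intro a
  cases a with
  | none =>
    simp only [pw]
    have : dg G v / Δ ≤ 1 := by rw [div_le_one hΔ]; exact hd v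
    linarith
  | some u => exact div_nonneg (ad_nonneg G v u) hΔ.le

lemma pw_sum (v : V) : ∑ a, pw G Δ v a = 1 := by
  rw [Fintype.sum_option]
  simp only [pw]
  rw [← Finset.sum_div]
  change 1 - dg G v / Δ + dg G v / Δ = 1
  ring

lemma Pr_nr (v x : V) : Pr (pw G Δ v) (nr G x) = Fr G Δ v x := by
  unfold Pr Fr
  rw [Fintype.sum_option]
  have h0 : ind (nr G x) none = 0 := by simp [ind, nr]
  rw [h0, mul_zero, zero_add, Finset.sum_div]
  refine Finset.sum_congr rfl fun u _ => ?_
  have : ind (nr G x) (some u) = cl G u x := by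
    unfold ind cl nr
    by_cases h : u = x ∨ G.Adj u x
    · rw [if_pos h, if_pos h]
    · rw [if_neg h, if_neg h]
  rw [this]
  simp only [pw]
  ring

lemma Pr_nr2 (v x y : V) :
    Pr (pw G Δ v) (fun a => nr G x a ∧ nr G y a) = Jr G Δ v x y := by
  unfold Pr Jr
  rw [Fintype.sum_option]
  have h0 : ind (fun a => nr G x a ∧ nr G y a) none = 0 := by simp [ind, nr]
  rw [h0, mul_zero, zero_add, Finset.sum_div]
  refine Finset.sum_congr rfl fun u _ => ?_
  have : ind (fun a => nr G x a ∧ nr G y a) (some u) = cl G u x * cl G u y := by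
    unfold ind cl nr
    by_cases h : u = x ∨ G.Adj u x
    · by_cases h' : u = y ∨ G.Adj u y
      · rw [if_pos ⟨h, h'⟩, if_pos h, if_pos h']; norm_num
      · rw [if_neg (fun hh => h' hh.2), if_pos h, if_neg h']; norm_num
    · rw [if_neg (fun hh => h hh.1), if_neg h]; norm_num
  rw [this]
  simp only [pw]
  ring

lemma Pr_at (v u : V) : Pr (pw G Δ v) (at' u) = ad G v u / Δ := by
  classical
  unfold Pr
  rw [Fintype.sum_option]
  have h0 : ind (at' u) none = 0 := by simp [ind, at']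
  rw [h0, mul_zero, zero_add, Finset.sum_eq_single u]
  · have : ind (at' u) (some u) = 1 := by simp [ind, at']
    rw [this, mul_one]
    rfl
  · intro b _ hb
    have : ind (at' u) (some b) = 0 := by simp [ind, at', hb]
    rw [this, mul_zero]
  · intro h; exact absurd (Finset.mem_univ u) h

/-- The expected number of (ordered) adjacent pairs inside the closed neighbourhood of the random
set of `t` neighbours of `v`. -/
noncomputable def EE (G : SimpleGraph V) (Δ : ℝ) (t : ℕ) (v : V) : ℝ :=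
  ∑ x, ∑ y, ad G x y * Ex (pw G Δ v) t (fun ω => hit (nr G x) ω * hit (nr G y) ω)

/-- Intermediate scales are rare for one of the scales. -/
lemma exists_scale (hΔ : 0 < Δ) (hd : ∀ x, dg G x ≤ Δ) (τ : ℕ → ℝ) (hτ : Antitone τ)
    (L : ℕ) (hL : 0 < L) :
    ∃ j < L, (L : ℝ) * ∑ v, ∑ x, (if τ (j + 1) ≤ Fr G Δ v x ∧ Fr G Δ v x < τ j
      then Fr G Δ v x else 0) ≤ Fintype.card V * (Δ + 1) := by
  classical
  by_contra hcon
  push Not at hcon
  set M : ℕ → ℝ := fun j => ∑ v, ∑ x, (if τ (j + 1) ≤ Fr G Δ v x ∧ Fr G Δ v x < τ j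
      then Fr G Δ v x else 0) with hM
  have hsum : ∑ j ∈ Finset.range L, M j ≤ Fintype.card V * (Δ + 1) := by
    have : ∑ j ∈ Finset.range L, M j = ∑ v, ∑ x, Fr G Δ v x *
        ∑ j ∈ Finset.range L, (if τ (j + 1) ≤ Fr G Δ v x ∧ Fr G Δ v x < τ j then (1:ℝ) else 0) := by
      simp only [hM]
      rw [Finset.sum_comm]
      refine Finset.sum_congr rfl fun v _ => ?_
      rw [Finset.sum_comm]
      refine Finset.sum_congr rfl fun x _ => ?_
      rw [Finset.mul_sum]
      refine Finset.sum_congr rfl fun j _ => ?_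
      split_ifs <;> simp
    rw [this]
    calc _ ≤ ∑ v, ∑ x, Fr G Δ v x * 1 := by
          refine Finset.sum_le_sum fun v _ => Finset.sum_le_sum fun x _ =>
            mul_le_mul_of_nonneg_left ?_ (Fr_nonneg hΔ v x)
          have tele : ∀ j, (if τ (j + 1) ≤ Fr G Δ v x ∧ Fr G Δ v x < τ j then (1:ℝ) else 0)
              = (if τ (j + 1) ≤ Fr G Δ v x then (1:ℝ) else 0)
                - (if τ j ≤ Fr G Δ v x then (1:ℝ) else 0) := by
            intro j
            have hj : τ (j + 1) ≤ τ j := hτ (Nat.le_succ j)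
            by_cases h1 : τ (j + 1) ≤ Fr G Δ v x
            · by_cases h2 : τ j ≤ Fr G Δ v x
              · rw [if_neg (fun h => absurd h.2 (not_lt.mpr h2)), if_pos h1, if_pos h2]; norm_num
              · rw [if_pos ⟨h1, not_le.mp h2⟩, if_pos h1, if_neg h2]; norm_num
            · have h2 : ¬ τ j ≤ Fr G Δ v x := fun h => h1 (le_trans hj h)
              rw [if_neg (fun h => h1 h.1), if_neg h1, if_neg h2]; norm_num
          simp only [tele]
          rw [Finset.sum_range_sub (fun j => if τ j ≤ Fr G Δ v x then (1:ℝ) else 0) L]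
          split_ifs <;> norm_num
      _ = ∑ v, ∑ x, Fr G Δ v x := by simp
      _ ≤ ∑ _v : V, (Δ + 1) := Finset.sum_le_sum fun v _ => sum_Fr_right hΔ hd v
      _ = _ := by rw [Finset.sum_const, nsmul_eq_mul, Finset.card_univ]
  have hlt : ∑ j ∈ Finset.range L, (Fintype.card V * (Δ + 1)) / (L : ℝ)
      < ∑ j ∈ Finset.range L, M j := by
    refine Finset.sum_lt_sum_of_nonempty ⟨0, Finset.mem_range.mpr hL⟩ fun j hj => ?_
    have := hcon j (Finset.mem_range.mp hj)
    rw [div_lt_iff₀ (by exact_mod_cast hL)]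
    calc _ < _ := this
      _ = M j * L := by rw [mul_comm]
  rw [Finset.sum_const, Finset.card_range, nsmul_eq_mul] at hlt
  have hL' : (0:ℝ) < L := by exact_mod_cast hL
  have : (L : ℝ) * (Fintype.card V * (Δ + 1) / L) = Fintype.card V * (Δ + 1) := by
    field_simp
  linarith

/-- The heart lemma. -/
theorem heart (δ : ℝ) (hδ : 0 < δ) (hδ1 : δ ≤ 1) :
    ∃ K : ℕ, ∀ (V : Type) [Fintype V] (G : SimpleGraph V) (Δ : ℝ), 0 < Δ →
      (∀ x, dg G x ≤ Δ) → 1 ≤ δ * (Δ + 1) →
      ∃ t : ℕ, 1 ≤ t ∧ t ≤ K ∧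
        ∑ v, EE G Δ t v ≤ Fintype.card V * (t * (Δ + 1) ^ 2 * (1 / 4 + 7 * δ)) := by
  set τ : ℕ → ℝ := fun j => (δ ^ 2 / 2) ^ j with hτdef
  have hr0 : 0 < δ ^ 2 / 2 := by positivity
  have hr1 : δ ^ 2 / 2 ≤ 1 := by nlinarith
  have hτpos : ∀ j, 0 < τ j := fun j => pow_pos hr0 j
  have hτle1 : ∀ j, τ j ≤ 1 := fun j => pow_le_one₀ hr0.le hr1
  have hτanti : Antitone τ := fun i j hij => pow_le_pow_of_le_one hr0.le hr1 hij
  obtain ⟨L, hL⟩ := exists_nat_gt (1 / δ)
  have hLpos : 0 < L := by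
    have : (0:ℝ) < L := lt_trans (by positivity) hL
    exact_mod_cast this
  set tt : ℕ → ℕ := fun j => ⌈1 / (δ * τ j)⌉₊ with htt
  refine ⟨∑ j ∈ Finset.range L, tt j, ?_⟩
  intro V _ G Δ hΔ hd hbig
  obtain ⟨j, hj, hmid⟩ := exists_scale (G := G) hΔ hd τ hτanti L hLpos
  refine ⟨tt j, ?_, ?_, ?_⟩
  · rw [htt]
    simp only
    exact Nat.one_le_iff_ne_zero.mpr (by
      rw [Nat.ne_zero_iff_zero_lt, Nat.ceil_pos]
      exact div_pos one_pos (mul_pos hδ (hτpos j)))
  · exact Finset.single_le_sum (f := tt) (fun i _ => Nat.zero_le _) (Finset.mem_range.mpr hj)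
  · set t : ℝ := (tt j : ℝ) with ht
    have htl : 1 / (δ * τ j) ≤ t := Nat.le_ceil _
    have htu : t ≤ 1 / (δ * τ j) + 1 := (Nat.ceil_lt_add_one (by
      exact (div_pos one_pos (mul_pos hδ (hτpos j))).le)).le
    have hone : 1 ≤ 1 / (δ * τ j) := by
      rw [le_div_iff₀ (mul_pos hδ (hτpos j))]
      have := hτle1 j
      have := hτpos j
      nlinarith
    have ht0 : 0 < t := lt_of_lt_of_le (by linarith) htl
    set a := τ j with ha
    set b := τ (j + 1) with hb
    have hab : b = a * (δ ^ 2 / 2) := by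
      simp only [hb, ha, hτdef, pow_succ]
    have ha0 : 0 < a := hτpos j
    have ha1 : a ≤ 1 := hτle1 j
    have hb0 : 0 < b := hτpos (j + 1)
    have hba : b ≤ a := hτanti (Nat.le_succ j)
    -- numeric estimates
    have e1 : 1 / a ≤ δ * t := by
      have : 1 / (δ * a) * (δ) = 1 / a := by field_simp
      calc 1 / a = 1 / (δ * a) * δ := this.symm
        _ ≤ t * δ := mul_le_mul_of_nonneg_right htl hδ.le
        _ = δ * t := by ring
    have e2 : t * b ≤ δ := by
      have : t ≤ 2 / (δ * a) := by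
        have : (2:ℝ) / (δ * a) = 1 / (δ * a) + 1 / (δ * a) := by ring
        linarith
      calc t * b ≤ 2 / (δ * a) * b := mul_le_mul_of_nonneg_right this hb0.le
        _ = δ := by rw [hab]; field_simp
    have e4 : t ^ 2 * b ≤ δ * t := by
      have : t ^ 2 * b = t * (t * b) := by ring
      rw [this]
      nlinarith
    have e5 : b ≤ δ := by
      rw [hab]
      nlinarith
    set B := (Δ + 1) ^ 2 with hB
    have hB1 : Δ * (Δ + 1) ≤ B := by rw [hB]; nlinarith
    have hB0 : 0 < B := by positivity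
    have hB2 : Δ ≤ δ * B := by
      have : Δ + 1 ≤ δ * (Δ + 1) * (Δ + 1) := by nlinarith
      rw [hB]
      nlinarith
    have hP := heart_sum (G := G) hΔ hd (τ := a) (τ' := b) (t := t) hb0 hba ht0.le
      (fun v x y => Ex (pw G Δ v) (tt j) (fun ω => hit (nr G x) ω * hit (nr G y) ω))
      (fun v x y => Ex_hit_le_one (pw_nonneg hΔ hd v) (pw_sum v) _ _)
      (fun v x y => by
        have := Ex_hit_mul_le_left (t := tt j) (pw_nonneg hΔ hd v) (pw_sum v) (nr G x) (nr G y)
        rwa [Pr_nr] at this)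
      (fun v x y => by
        have := Ex_hit_mul_le_right (t := tt j) (pw_nonneg hΔ hd v) (pw_sum v) (nr G x) (nr G y)
        rwa [Pr_nr] at this)
      (fun v x y => by
        have := Ex_hit_two_le (t := tt j) (pw_nonneg hΔ hd v) (pw_sum v) (nr G x) (nr G y)
        rwa [Pr_nr, Pr_nr, Pr_nr2] at this)
    set n : ℝ := (Fintype.card V : ℝ) with hn
    have hn0 : 0 ≤ n := Nat.cast_nonneg _
    set Mi : ℝ := ∑ v, ∑ x, (if b ≤ Fr G Δ v x ∧ Fr G Δ v x < a then Fr G Δ v x else 0) with hMi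
    have hMi2 : 2 * t * Δ * Mi ≤ n * (2 * δ * t * B) := by
      have hMi1 : Mi ≤ δ * (n * (Δ + 1)) := by
        have hLr : (0:ℝ) < L := by exact_mod_cast hLpos
        have h1 : 1 ≤ δ * L := by
          rw [div_lt_iff₀ hδ] at hL
          linarith
        have hMi0 : 0 ≤ Mi := by
          refine Finset.sum_nonneg fun v _ => Finset.sum_nonneg fun x _ => ?_
          split_ifs
          · exact Fr_nonneg hΔ v x
          · exact le_rfl
        have h2 : (L:ℝ) * Mi ≤ n * (Δ + 1) := hmid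
        calc Mi ≤ (δ * L) * Mi := by nlinarith
          _ = δ * (L * Mi) := by ring
          _ ≤ δ * (n * (Δ + 1)) := mul_le_mul_of_nonneg_left h2 hδ.le
      have h3 : 0 ≤ 2 * t * Δ := by positivity
      calc 2 * t * Δ * Mi ≤ 2 * t * Δ * (δ * (n * (Δ + 1))) := mul_le_mul_of_nonneg_left hMi1 h3
        _ = (2 * t * δ * n) * (Δ * (Δ + 1)) := by ring
        _ ≤ (2 * t * δ * n) * B := mul_le_mul_of_nonneg_left hB1 (by positivity)
        _ = _ := by ring
    have hEE : ∑ v, EE G Δ (tt j) v = ∑ v, ∑ x, ∑ y, ad G x y *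
        Ex (pw G Δ v) (tt j) (fun ω => hit (nr G x) ω * hit (nr G y) ω) := rfl
    rw [hEE]
    refine le_trans hP ?_
    have main : Δ * (Δ + 1) / a + 2 * (t * b / a) * (Δ * (Δ + 1)) + t ^ 2 * b * (Δ * (Δ + 1))
        + t * (Δ + Δ * b * (Δ + 1) + (Δ + 1) ^ 2 / 4)
        ≤ t * B * (1 / 4 + 5 * δ + δ) - δ * t * B := by
      have f1 : Δ * (Δ + 1) / a ≤ δ * t * B := by
        calc Δ * (Δ + 1) / a = (1 / a) * (Δ * (Δ + 1)) := by ring
          _ ≤ (δ * t) * B := mul_le_mul e1 hB1 (by positivity) (by positivity)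
      have f2 : 2 * (t * b / a) * (Δ * (Δ + 1)) ≤ δ ^ 2 * t * B := by
        have : t * b / a = t * (δ ^ 2 / 2) := by rw [hab]; field_simp
        rw [this]
        calc 2 * (t * (δ ^ 2 / 2)) * (Δ * (Δ + 1)) = (δ ^ 2 * t) * (Δ * (Δ + 1)) := by ring
          _ ≤ (δ ^ 2 * t) * B := mul_le_mul_of_nonneg_left hB1 (by positivity)
      have f2' : δ ^ 2 * t * B ≤ δ * t * B := by
        have : δ ^ 2 ≤ δ := by nlinarith
        have h0 : 0 ≤ t * B := by positivity
        nlinarith
      have f3 : t ^ 2 * b * (Δ * (Δ + 1)) ≤ δ * t * B :=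
        mul_le_mul e4 hB1 (by positivity) (by positivity)
      have f4 : t * Δ ≤ δ * t * B := by nlinarith
      have f5 : t * (Δ * b * (Δ + 1)) ≤ δ * t * B := by
        calc t * (Δ * b * (Δ + 1)) = (t * b) * (Δ * (Δ + 1)) := by ring
          _ ≤ (t * δ) * B := mul_le_mul (mul_le_mul_of_nonneg_left e5 ht0.le) hB1
              (by positivity) (by positivity)
          _ = _ := by ring
      nlinarith
    have : n * (Δ * (Δ + 1) / a + 2 * (t * b / a) * (Δ * (Δ + 1)) + t ^ 2 * b * (Δ * (Δ + 1))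
        + t * (Δ + Δ * b * (Δ + 1) + (Δ + 1) ^ 2 / 4))
        ≤ n * (t * B * (1 / 4 + 5 * δ + δ) - δ * t * B) := mul_le_mul_of_nonneg_left main hn0
    calc _ ≤ n * (t * B * (1 / 4 + 5 * δ + δ) - δ * t * B) + n * (2 * δ * t * B) := by
          exact add_le_add this hMi2
      _ = _ := by rw [hB]; ring

end

end Frag
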