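import Pool.Agent.Work.MP_547619_co_helper96.Scale
import Pool.Agent.Work.MP_547619_co_helper96.Potential

/-!
# One step: a good set `T` of boundedly many neighbours of a vertex
-/

open Finset

set_option linter.unusedSectionVars false

namespace Frag

section samples
variable {α : Type*} [Fintype α] {p : α → ℝ} {t : ℕ}

lemma Ex_sum_mul_le (hp : ∀ a, 0 ≤ p a) (h1 : ∑ a, p a = 1) (A B : α → Prop) :
    Ex p t (fun ω => (∑ i, ind A (ω i)) * (∑ j, ind B (ω j)))
      ≤ t * Pr p (fun a => A a ∧ B a) + (t : ℝ) ^ 2 * (Pr p A * Pr p B) := by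
  have hAB : 0 ≤ Pr p A * Pr p B := mul_nonneg (Pr_nonneg hp A) (Pr_nonneg hp B)
  calc Ex p t (fun ω => (∑ i, ind A (ω i)) * (∑ j, ind B (ω j)))
      = Ex p t (fun ω => ∑ i, ∑ j, ind A (ω i) * ind B (ω j)) := by
        congr 1
        funext ω
        rw [Finset.sum_mul_sum]
    _ = ∑ i : Fin t, ∑ j : Fin t, Ex p t (fun ω => ind A (ω i) * ind B (ω j)) := by
        rw [Ex_sum]
        exact Finset.sum_congr rfl fun i _ => Ex_sum _ _
    _ ≤ ∑ i : Fin t, ∑ j : Fin t, ((if i = j then Pr p (fun a => A a ∧ B a) else 0)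
          + Pr p A * Pr p B) := by
        refine Finset.sum_le_sum fun i _ => Finset.sum_le_sum fun j _ => ?_
        by_cases hij : i = j
        · subst hij
          have : Ex p t (fun ω => ind A (ω i) * ind B (ω i)) = Pr p (fun a => A a ∧ B a) := by
            have h2 := Ex_one h1 i (fun a => ind A a * ind B a)
            rw [h2]
            unfold Pr ind
            refine Finset.sum_congr rfl fun a _ => ?_
            by_cases hA : A a <;> by_cases hB : B a <;> simp [hA, hB]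
          rw [this]
          simp [hAB]
        · rw [Ex_two h1 hij (ind A) (ind B)]
          simp [hij, Pr]
    _ = t * Pr p (fun a => A a ∧ B a) + (t : ℝ) ^ 2 * (Pr p A * Pr p B) := by
        simp [Finset.sum_add_distrib]
        ring

lemma sum_ind_nat (A : α → Prop) (ω : Fin t → α) : ∃ m : ℕ, ∑ i, ind A (ω i) = m := by
  classical
  refine ⟨{i | A (ω i)}.toFinset.card, ?_⟩
  unfold ind
  rw [Finset.sum_ite]
  simp

lemma hit_ge (A : α → Prop) (ω : Fin t → α) :
    2 * (∑ i, ind A (ω i)) - (∑ i, ind A (ω i)) * (∑ i, ind A (ω i)) ≤ hit A ω := by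
  obtain ⟨m, hm⟩ := sum_ind_nat A ω
  unfold hit
  split_ifs with h
  · nlinarith [sq_nonneg ((∑ i, ind A (ω i)) - 1)]
  · have : ∑ i, ind A (ω i) = 0 := by
      refine Finset.sum_eq_zero fun i _ => ?_
      unfold ind
      rw [if_neg (fun hA => h ⟨i, hA⟩)]
    rw [this]; norm_num

lemma Ex_hit_ge (hp : ∀ a, 0 ≤ p a) (h1 : ∑ a, p a = 1) (A : α → Prop) :
    t * Pr p A - (t : ℝ) ^ 2 * (Pr p A) ^ 2 ≤ Ex p t (hit A) := by
  calc t * Pr p A - (t : ℝ) ^ 2 * (Pr p A) ^ 2
      ≤ 2 * (t * Pr p A) - (t * Pr p A + (t : ℝ) ^ 2 * (Pr p A * Pr p A)) := by nlinarith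
    _ ≤ Ex p t (fun ω => 2 * (∑ i, ind A (ω i)) - (∑ i, ind A (ω i)) * (∑ i, ind A (ω i))) := by
        rw [Ex_sub, Ex_mul]
        have e1 : Ex p t (fun ω => ∑ i, ind A (ω i)) = t * Pr p A := by
          rw [Ex_sum]
          calc ∑ i : Fin t, Ex p t (fun ω => ind A (ω i)) = ∑ _i : Fin t, Pr p A :=
                Finset.sum_congr rfl fun i _ => Ex_one h1 i (ind A)
            _ = _ := by simp
        have e2 := Ex_sum_mul_le (t := t) hp h1 A A
        have e3 : Pr p (fun a => A a ∧ A a) = Pr p A := by simp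
        rw [e3] at e2
        rw [e1]
        linarith
    _ ≤ Ex p t (hit A) := Ex_mono hp (hit_ge A)

end samples

section
variable {V : Type} [Fintype V] {G : SimpleGraph V}

open Classical in
/-- the sampled set -/
noncomputable def Tset {t : ℕ} (ω : Fin t → Option V) : Finset V :=
  {u | ∃ i, at' u (ω i)}

open Classical in
/-- its closed neighbourhood -/
noncomputable def Rset (G : SimpleGraph V) {t : ℕ} (ω : Fin t → Option V) : Finset V :=
  {x | ∃ i, nr G x (ω i)}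

lemma at'_iff (u : V) (a : Option V) : at' u a ↔ a = some u := by
  cases a with
  | none => simp [at']
  | some w => simp [at']

lemma nr_iff (x : V) (a : Option V) : nr G x a ↔ ∃ u, a = some u ∧ (u = x ∨ G.Adj u x) := by
  cases a with
  | none => simp [nr]
  | some w => simp [nr]

lemma mem_Tset {t : ℕ} (ω : Fin t → Option V) (u : V) : u ∈ Tset ω ↔ ∃ i, ω i = some u := by
  simp [Tset, at'_iff]

lemma mem_Rset {t : ℕ} (ω : Fin t → Option V) (x : V) :
    x ∈ Rset G ω ↔ ∃ u ∈ Tset ω, u = x ∨ G.Adj u x := by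
  simp only [Rset, nr_iff, Finset.mem_filter, Finset.mem_univ, true_and, mem_Tset]
  constructor
  · rintro ⟨i, u, h1, h2⟩; exact ⟨u, ⟨i, h1⟩, h2⟩
  · rintro ⟨u, ⟨i, h1⟩, h2⟩; exact ⟨i, u, h1, h2⟩

lemma card_Tset_le {t : ℕ} (ω : Fin t → Option V) : (Tset ω).card ≤ t := by
  classical
  have : Tset ω ⊆ (Finset.univ : Finset (Fin t)).biUnion
      (fun i => Option.elim (ω i) ∅ (fun u => {u})) := by
    intro u hu
    rw [mem_Tset] at hu
    obtain ⟨i, hi⟩ := hu
    rw [Finset.mem_biUnion]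
    refine ⟨i, Finset.mem_univ i, ?_⟩
    rw [hi]
    simp
  refine le_trans (Finset.card_le_card this) ?_
  refine le_trans Finset.card_biUnion_le ?_
  calc ∑ i : Fin t, (Option.elim (ω i) ∅ (fun u => ({u} : Finset V))).card
      ≤ ∑ _i : Fin t, 1 := by
        refine Finset.sum_le_sum fun i _ => ?_
        cases ω i <;> simp
    _ = t := by simp

lemma card_Tset {t : ℕ} (ω : Fin t → Option V) : ((Tset ω).card : ℝ) = ∑ u, hit (at' u) ω := by
  classical
  unfold Tset hit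
  rw [Finset.sum_ite]
  simp

lemma sum_Rset {t : ℕ} (ω : Fin t → Option V) (f : V → ℝ) :
    ∑ x ∈ Rset G ω, f x = ∑ x, f x * hit (nr G x) ω := by
  classical
  unfold Rset hit
  rw [Finset.sum_filter]
  refine Finset.sum_congr rfl fun x _ => ?_
  split_ifs <;> simp

lemma eR_Rset {t : ℕ} (ω : Fin t → Option V) :
    eR G (Rset G ω) = ∑ x, ∑ y, ad G x y * (hit (nr G x) ω * hit (nr G y) ω) := by
  unfold eR
  rw [sum_Rset ω (fun x => ∑ y ∈ Rset G ω, ad G x y)]
  refine Finset.sum_congr rfl fun x _ => ?_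
  rw [sum_Rset ω (fun y => ad G x y), Finset.sum_mul]
  refine Finset.sum_congr rfl fun y _ => ?_
  ring

/-- Averaging: if the average is positive, some outcome is good. -/
lemma exists_good (hn : Nonempty V) {Δ : ℝ} (hΔ : 0 < Δ) (hd : ∀ x, dg G x ≤ Δ) {t : ℕ}
    (Φ : (Fin t → Option V) → ℝ) (h : 0 < ∑ v, Ex (pw G Δ v) t Φ) : ∃ ω, 0 < Φ ω := by
  by_contra hcon
  push Not at hcon
  have : ∀ v, Ex (pw G Δ v) t Φ ≤ 0 := by
    intro v
    unfold Ex
    refine Finset.sum_nonpos fun ω _ => ?_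
    exact mul_nonpos_of_nonneg_of_nonpos (prod_nonneg' (pw_nonneg hΔ hd v) ω) (hcon ω)
  have := Finset.sum_nonpos (s := (Finset.univ : Finset V)) fun v _ => this v
  linarith

/-- The numerical inequality. -/
lemma numeric {s θ : ℝ} (hs : 0 < s) (hs1 : s ≤ 1 / 200) (hθ0 : 0 ≤ θ) (hθ : θ ≤ 4 - 200 * s) :
    θ * ((1 + s) * s + (1 + s) ^ 2 * (1 / 4 + 7 * s)) < 1 - s := by
  have h1 : (1 + s) * s + (1 + s) ^ 2 * (1 / 4 + 7 * s) ≤ 1 / 4 + 9 * s := by
    nlinarith [mul_pos hs hs, mul_pos (mul_pos hs hs) hs, mul_nonneg hs.le (sub_nonneg.mpr hs1),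
      mul_nonneg (mul_pos hs hs).le (sub_nonneg.mpr hs1)]
  have h2 : 0 ≤ (1 + s) * s + (1 + s) ^ 2 * (1 / 4 + 7 * s) := by positivity
  calc θ * ((1 + s) * s + (1 + s) ^ 2 * (1 / 4 + 7 * s))
      ≤ (4 - 200 * s) * (1 / 4 + 9 * s) := mul_le_mul hθ h1 h2 (by linarith)
    _ < 1 - s := by nlinarith [mul_pos hs hs]

theorem exists_T (s : ℝ) (hs : 0 < s) (hs1 : s ≤ 1 / 200) :
    ∃ K : ℕ, ∀ (V : Type) [Fintype V] (G : SimpleGraph V) (D M θ : ℝ), Nonempty V →
      (Fintype.card V : ℝ) * D = ed G → 0 ≤ M → M ≤ s * D → M / 2 + 1 ≤ s * D → (K : ℝ) ≤ s * D →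
      (∀ x, dg G x ≤ D + M / 2) → 0 ≤ θ → θ ≤ 4 - 200 * s →
      ∃ T R : Finset V, T.Nonempty ∧ T ⊆ R ∧ T.card ≤ K ∧ (∀ x ∈ T, ∀ y, G.Adj x y → y ∈ R) ∧
        θ * ((∑ x ∈ R, (2 * (D - dg G x) + M)) + eR G R) ≤ (T.card : ℝ) * (D + M) ^ 2 := by
  obtain ⟨K, hK⟩ := heart s hs (by linarith)
  refine ⟨K, ?_⟩
  intro V _ G D M θ hV hnD hM0 hM1 hM2 hKD hdeg hθ0 hθ
  have hD0 : 0 < D := by
    by_contra h
    push Not at h
    have : s * D ≤ 0 := mul_nonpos_of_nonneg_of_nonpos hs.le h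
    linarith
  set Δ : ℝ := D + M / 2 with hΔdef
  have hΔ : 0 < Δ := by positivity
  have hbig : 1 ≤ s * (Δ + 1) := by
    have : s * D ≤ s * (Δ + 1) := mul_le_mul_of_nonneg_left (by linarith) hs.le
    linarith
  obtain ⟨t, ht1, htK, hEE⟩ := hK V G Δ hΔ hdeg hbig
  set n : ℝ := (Fintype.card V : ℝ) with hn
  have hn0 : 0 < n := by
    rw [hn]; exact_mod_cast Fintype.card_pos
  set tr : ℝ := (t : ℝ) with htr
  have ht1' : 1 ≤ tr := by rw [htr]; exact_mod_cast ht1
  have htK' : tr ≤ K := by rw [htr]; exact_mod_cast htK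
  -- the functional
  set Φ : (Fin t → Option V) → ℝ := fun ω => ((Tset ω).card : ℝ) * (D + M) ^ 2
    - θ * ((∑ x ∈ Rset G ω, (2 * (D - dg G x) + M)) + eR G (Rset G ω)) with hΦ
  have hpos : 0 < ∑ v, Ex (pw G Δ v) t Φ := by
    have hΦ2 : ∀ v, Ex (pw G Δ v) t Φ = (D + M) ^ 2 * (∑ u, Ex (pw G Δ v) t (hit (at' u)))
        - θ * ((∑ x, (2 * (D - dg G x) + M) * Ex (pw G Δ v) t (hit (nr G x))) + EE G Δ t v) := by
      intro v
      have e0 : Φ = fun ω => (D + M) ^ 2 * (∑ u, hit (at' u) ω)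
          - θ * ((∑ x, (2 * (D - dg G x) + M) * hit (nr G x) ω)
            + ∑ x, ∑ y, ad G x y * (hit (nr G x) ω * hit (nr G y) ω)) := by
        funext ω
        simp only [hΦ]
        rw [card_Tset, sum_Rset ω (fun x => 2 * (D - dg G x) + M), eR_Rset]
        ring
      rw [e0, Ex_sub, Ex_mul, Ex_mul, Ex_add, Ex_sum, Ex_sum, Ex_sum]
      have e1 : ∀ x, Ex (pw G Δ v) t (fun ω => (2 * (D - dg G x) + M) * hit (nr G x) ω)
          = (2 * (D - dg G x) + M) * Ex (pw G Δ v) t (hit (nr G x)) := fun x => Ex_mul _ _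
      have e2 : ∀ x, Ex (pw G Δ v) t (fun ω => ∑ y, ad G x y * (hit (nr G x) ω * hit (nr G y) ω))
          = ∑ y, ad G x y * Ex (pw G Δ v) t (fun ω => hit (nr G x) ω * hit (nr G y) ω) := by
        intro x
        rw [Ex_sum]
        exact Finset.sum_congr rfl fun y _ => Ex_mul _ _
      simp only [e1, e2]
      rfl
    -- the three bounds
    have hsumdeg : ∑ x, dg G x = n * D := hnD.symm
    have b1 : n * (tr * D / Δ - tr ^ 2 * D / Δ ^ 2)
        ≤ ∑ v, ∑ u, Ex (pw G Δ v) t (hit (at' u)) := by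
      calc n * (tr * D / Δ - tr ^ 2 * D / Δ ^ 2)
          = ∑ v, (tr * dg G v / Δ - tr ^ 2 * dg G v / Δ ^ 2) := by
            have : ∀ v, tr * dg G v / Δ - tr ^ 2 * dg G v / Δ ^ 2
                = (tr / Δ - tr ^ 2 / Δ ^ 2) * dg G v := by intro v; ring
            simp only [this]
            rw [← Finset.mul_sum, hsumdeg]
            ring
        _ ≤ ∑ v, ∑ u, (tr * (ad G v u / Δ) - tr ^ 2 * (ad G v u / Δ) ^ 2) := by
            refine Finset.sum_le_sum fun v _ => ?_
            have : ∀ u, tr * (ad G v u / Δ) - tr ^ 2 * (ad G v u / Δ) ^ 2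
                = (tr / Δ - tr ^ 2 / Δ ^ 2) * ad G v u := by
              intro u
              have h2 : (ad G v u) ^ 2 = ad G v u := by rw [sq]; exact ad_sq G v u
              rw [div_pow, h2]
              ring
            simp only [this]
            rw [← Finset.mul_sum]
            have : ∑ u, ad G v u = dg G v := rfl
            rw [this]
            apply le_of_eq
            ring
        _ ≤ ∑ v, ∑ u, Ex (pw G Δ v) t (hit (at' u)) := by
            refine Finset.sum_le_sum fun v _ => Finset.sum_le_sum fun u _ => ?_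
            have := Ex_hit_ge (t := t) (pw_nonneg hΔ hdeg v) (pw_sum v) (at' u)
            rwa [Pr_at] at this
    have b2 : ∑ v, ∑ x, (2 * (D - dg G x) + M) * Ex (pw G Δ v) t (hit (nr G x))
        ≤ n * (tr * (Δ + 1) * M) := by
      have hw : ∀ x, 0 ≤ 2 * (D - dg G x) + M := by intro x; have := hdeg x; linarith
      calc ∑ v, ∑ x, (2 * (D - dg G x) + M) * Ex (pw G Δ v) t (hit (nr G x))
          ≤ ∑ v, ∑ x, (2 * (D - dg G x) + M) * (tr * Fr G Δ v x) := by
            refine Finset.sum_le_sum fun v _ => Finset.sum_le_sum fun x _ =>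
              mul_le_mul_of_nonneg_left ?_ (hw x)
            have := Ex_hit_le (t := t) (pw_nonneg hΔ hdeg v) (pw_sum v) (nr G x)
            rwa [Pr_nr] at this
        _ = ∑ x, (2 * (D - dg G x) + M) * (tr * ∑ v, Fr G Δ v x) := by
            rw [Finset.sum_comm]
            refine Finset.sum_congr rfl fun x _ => ?_
            rw [Finset.mul_sum, Finset.mul_sum]
        _ ≤ ∑ x, (2 * (D - dg G x) + M) * (tr * (Δ + 1)) := by
            refine Finset.sum_le_sum fun x _ => mul_le_mul_of_nonneg_left ?_ (hw x)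
            exact mul_le_mul_of_nonneg_left (sum_Fr_left hΔ hdeg x) (by linarith)
        _ = n * (tr * (Δ + 1) * M) := by
            rw [← Finset.sum_mul]
            have : ∑ x, (2 * (D - dg G x) + M) = n * M := by
              have h3 : ∀ x, 2 * (D - dg G x) + M = (2 * D + M) - 2 * dg G x := by intro x; ring
              simp only [h3]
              rw [Finset.sum_sub_distrib, ← Finset.mul_sum, hsumdeg, Finset.sum_const,
                nsmul_eq_mul, Finset.card_univ]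
              ring
            rw [this]
            ring
    have b3 := hEE
    have hsum : ∑ v, Ex (pw G Δ v) t Φ = (D + M) ^ 2 * (∑ v, ∑ u, Ex (pw G Δ v) t (hit (at' u)))
        - θ * ((∑ v, ∑ x, (2 * (D - dg G x) + M) * Ex (pw G Δ v) t (hit (nr G x)))
          + ∑ v, EE G Δ t v) := by
      simp only [hΦ2]
      rw [Finset.sum_sub_distrib, ← Finset.mul_sum, ← Finset.mul_sum, Finset.sum_add_distrib]
    rw [hsum]
    have c1 : (D + M) ^ 2 * (n * (tr * D / Δ - tr ^ 2 * D / Δ ^ 2))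
        ≤ (D + M) ^ 2 * (∑ v, ∑ u, Ex (pw G Δ v) t (hit (at' u))) :=
      mul_le_mul_of_nonneg_left b1 (by positivity)
    have c2 : θ * ((∑ v, ∑ x, (2 * (D - dg G x) + M) * Ex (pw G Δ v) t (hit (nr G x)))
          + ∑ v, EE G Δ t v)
        ≤ θ * (n * (tr * (Δ + 1) * M) + n * (tr * (Δ + 1) ^ 2 * (1 / 4 + 7 * s))) :=
      mul_le_mul_of_nonneg_left (add_le_add b2 b3) hθ0
    -- compare
    have d1 : D ^ 2 * (tr * (1 - s)) ≤ (D + M) ^ 2 * (tr * D / Δ - tr ^ 2 * D / Δ ^ 2) := by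
      have f1 : tr * D / Δ - tr ^ 2 * D / Δ ^ 2 = (tr * D / Δ) * (1 - tr / Δ) := by
        field_simp
      have f2 : tr / Δ ≤ s := by
        rw [div_le_iff₀ hΔ]
        have : s * D ≤ s * Δ := mul_le_mul_of_nonneg_left (by linarith) hs.le
        linarith
      have f3 : D * D ≤ (D + M) ^ 2 * (D / Δ) := by
        have : (D + M) ^ 2 * (D / Δ) = (D + M) ^ 2 / Δ * D := by ring
        rw [this]
        refine mul_le_mul_of_nonneg_right ?_ hD0.le
        rw [le_div_iff₀ hΔ]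
        nlinarith
      have f4 : 0 ≤ tr * (1 - s) := mul_nonneg (by linarith) (by linarith)
      have f5 : 0 ≤ (D + M) ^ 2 * (D / Δ) := by positivity
      rw [f1]
      calc D ^ 2 * (tr * (1 - s)) = (D * D) * (tr * (1 - s)) := by ring
        _ ≤ ((D + M) ^ 2 * (D / Δ)) * (tr * (1 - s)) := mul_le_mul_of_nonneg_right f3 f4
        _ ≤ ((D + M) ^ 2 * (D / Δ)) * (tr * (1 - tr / Δ)) := by
            refine mul_le_mul_of_nonneg_left ?_ f5
            exact mul_le_mul_of_nonneg_left (by linarith) (by linarith)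
        _ = _ := by ring
    have d2 : (Δ + 1) * M + (Δ + 1) ^ 2 * (1 / 4 + 7 * s)
        ≤ D ^ 2 * ((1 + s) * s + (1 + s) ^ 2 * (1 / 4 + 7 * s)) := by
      have g1 : Δ + 1 ≤ (1 + s) * D := by
        rw [hΔdef]; linarith
      have g2 : (Δ + 1) * M ≤ ((1 + s) * D) * (s * D) :=
        mul_le_mul g1 hM1 hM0 (by positivity)
      have g3 : (Δ + 1) ^ 2 ≤ ((1 + s) * D) ^ 2 := pow_le_pow_left₀ (by positivity) g1 2
      have g4 : (Δ + 1) ^ 2 * (1 / 4 + 7 * s) ≤ ((1 + s) * D) ^ 2 * (1 / 4 + 7 * s) :=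
        mul_le_mul_of_nonneg_right g3 (by positivity)
      calc _ ≤ ((1 + s) * D) * (s * D) + ((1 + s) * D) ^ 2 * (1 / 4 + 7 * s) := add_le_add g2 g4
        _ = _ := by ring
    have d3 := numeric hs hs1 hθ0 hθ
    have d4 : θ * ((Δ + 1) * M + (Δ + 1) ^ 2 * (1 / 4 + 7 * s)) < D ^ 2 * (1 - s) := by
      calc θ * ((Δ + 1) * M + (Δ + 1) ^ 2 * (1 / 4 + 7 * s))
          ≤ θ * (D ^ 2 * ((1 + s) * s + (1 + s) ^ 2 * (1 / 4 + 7 * s))) :=
            mul_le_mul_of_nonneg_left d2 hθ0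
        _ = D ^ 2 * (θ * ((1 + s) * s + (1 + s) ^ 2 * (1 / 4 + 7 * s))) := by ring
        _ < D ^ 2 * (1 - s) := mul_lt_mul_of_pos_left d3 (by positivity)
    have d5 : θ * (n * (tr * (Δ + 1) * M) + n * (tr * (Δ + 1) ^ 2 * (1 / 4 + 7 * s)))
        < (D + M) ^ 2 * (n * (tr * D / Δ - tr ^ 2 * D / Δ ^ 2)) := by
      have hnt : 0 < n * tr := mul_pos hn0 (by linarith)
      calc θ * (n * (tr * (Δ + 1) * M) + n * (tr * (Δ + 1) ^ 2 * (1 / 4 + 7 * s)))
          = (n * tr) * (θ * ((Δ + 1) * M + (Δ + 1) ^ 2 * (1 / 4 + 7 * s))) := by ring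
        _ < (n * tr) * (D ^ 2 * (1 - s)) := mul_lt_mul_of_pos_left d4 hnt
        _ = n * (D ^ 2 * (tr * (1 - s))) := by ring
        _ ≤ n * ((D + M) ^ 2 * (tr * D / Δ - tr ^ 2 * D / Δ ^ 2)) :=
            mul_le_mul_of_nonneg_left d1 hn0.le
        _ = _ := by ring
    linarith
  obtain ⟨ω, hω⟩ := exists_good hV hΔ hdeg Φ hpos
  have hω2 : θ * ((∑ x ∈ Rset G ω, (2 * (D - dg G x) + M)) + eR G (Rset G ω))
      < ((Tset ω).card : ℝ) * (D + M) ^ 2 := by
    simp only [hΦ] at hω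
    linarith
  refine ⟨Tset ω, Rset G ω, ?_, ?_, ?_, ?_, hω2.le⟩
  · by_contra hne
    rw [Finset.not_nonempty_iff_eq_empty] at hne
    have hR : Rset G ω = ∅ := by
      rw [Finset.eq_empty_iff_forall_notMem]
      intro x hx
      rw [mem_Rset] at hx
      obtain ⟨u, hu, _⟩ := hx
      rw [hne] at hu
      exact absurd hu (Finset.notMem_empty u)
    rw [hne, hR] at hω2
    simp [eR] at hω2
  · intro u hu
    rw [mem_Rset]
    exact ⟨u, hu, Or.inl rfl⟩
  · exact (card_Tset_le ω).trans htK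
  · intro x hx y hxy
    rw [mem_Rset]
    exact ⟨x, hx, Or.inr hxy⟩

end

end Frag
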